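import Mathlib

set_option autoImplicit false

/-!
# Fractional domatic number: definitions and double counting
-/

open Finset

namespace Pool.Agent.helper13.FD

variable {V : Type*}

/-- `S` is a dominating set of `G`: every vertex outside `S` has a neighbour in `S`. -/
def Dominating (G : SimpleGraph V) (S : Finset V) : Prop :=
  ∀ v, v ∉ S → ∃ u ∈ S, G.Adj v u

/-- The numbers `k` such that `G` has `k` pairwise disjoint dominating sets. -/
def domaticSizes (G : SimpleGraph V) : Set ℕ :=
  {k | ∃ F : Fin k → Finset V, (∀ i, Dominating G (F i)) ∧ ∀ i j, i ≠ j → Disjoint (F i) (F j)}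

/-- `m(F)`: the largest number of members of the family `F` that contain a common vertex. -/
def maxMult [Fintype V] [DecidableEq V] {N : ℕ} (F : Fin N → Finset V) : ℕ :=
  univ.sup fun v => (univ.filter fun i => v ∈ F i).card

/-- The ratios `|F| / m(F)`, where `F` is a finite nonempty family (repetitions allowed) of
dominating sets. -/
def domaticRatios [Fintype V] [DecidableEq V] (G : SimpleGraph V) : Set ℚ :=
  {q | ∃ (N : ℕ) (F : Fin N → Finset V), 0 < N ∧ (∀ i, Dominating G (F i)) ∧
    q = (N : ℚ) / (maxMult F : ℚ)}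

/-- `dom(G) = k`: the largest number of pairwise disjoint dominating sets is `k`. -/
def HasDom (G : SimpleGraph V) (k : ℕ) : Prop := IsGreatest (domaticSizes G) k

/-- `FDOM(G) = q`: the largest ratio `|F| / m(F)` is `q`. -/
def HasFDom [Fintype V] [DecidableEq V] (G : SimpleGraph V) (q : ℚ) : Prop :=
  IsGreatest (domaticRatios G) q

/-- `H` has a `(k b : b)`-colouring: every vertex gets `b` of `k b` colours and adjacent vertices
get disjoint sets. -/
def FoldColorable (H : SimpleGraph V) (k b : ℕ) : Prop :=
  ∃ c : V → Finset (Fin (k * b)), (∀ v, (c v).card = b) ∧ ∀ u v, H.Adj u v → Disjoint (c u) (c v)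

/-- `χ_f(H) ≤ k`: for some `b ≥ 1`, `H` has a `(k b : b)`-colouring. -/
def FracColorable (H : SimpleGraph V) (k : ℕ) : Prop := ∃ b, 0 < b ∧ FoldColorable H k b

/-- `k M` dominating sets (repetitions allowed) no `M + 1` of which have a common vertex. -/
def Full [DecidableEq V] (G : SimpleGraph V) (k M : ℕ) : Prop :=
  ∃ F : Fin (k * M) → Finset V, (∀ i, Dominating G (F i)) ∧
    ∀ v, (univ.filter fun i => v ∈ F i).card ≤ M

/-- Double counting at a set of `k` vertices met by all members of the family. -/
lemma sum_count [DecidableEq V] {N k : ℕ} (F : Fin N → Finset V) (e : Fin k → V) :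
    ∑ z, (univ.filter fun i => e z ∈ F i).card = ∑ i, (univ.filter fun z => e z ∈ F i).card := by
  simp only [card_filter]
  exact sum_comm

lemma count_le [DecidableEq V] {N k M : ℕ} (F : Fin N → Finset V)
    (hM : ∀ v, (univ.filter fun i => v ∈ F i).card ≤ M) (e : Fin k → V)
    (he : ∀ i, ∃ z, e z ∈ F i) : N ≤ k * M := by
  have h1 : N ≤ ∑ i, (univ.filter fun z => e z ∈ F i).card := by
    have : ∑ i : Fin N, 1 ≤ ∑ i, (univ.filter fun z => e z ∈ F i).card :=
      sum_le_sum fun i _ => by
        obtain ⟨z, hz⟩ := he i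
        exact card_pos.2 ⟨z, by simpa using hz⟩
    simpa using this
  rw [← sum_count] at h1
  have h2 : ∑ z, (univ.filter fun i => e z ∈ F i).card ≤ ∑ _z : Fin k, M :=
    sum_le_sum fun z _ => hM _
  simp at h2
  exact h1.trans h2

/-- The equality case: every member meets the set exactly once, every vertex of the set is in
exactly `M` members. -/
lemma exact_of_full [DecidableEq V] {k M : ℕ} (F : Fin (k * M) → Finset V)
    (hM : ∀ v, (univ.filter fun i => v ∈ F i).card ≤ M) (e : Fin k → V)
    (he : ∀ i, ∃ z, e z ∈ F i) :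
    (∀ i z z', e z ∈ F i → e z' ∈ F i → z = z') ∧
      ∀ z, (univ.filter fun i => e z ∈ F i).card = M := by
  have h1 : ∀ i ∈ (univ : Finset (Fin (k * M))), 1 ≤ (univ.filter fun z => e z ∈ F i).card := by
    intro i _
    obtain ⟨z, hz⟩ := he i
    exact card_pos.2 ⟨z, by simpa using hz⟩
  have h2 : ∀ z ∈ (univ : Finset (Fin k)), (univ.filter fun i => e z ∈ F i).card ≤ M :=
    fun z _ => hM _
  have h3 := sum_le_sum h1
  have h4 := sum_le_sum h2
  have h5 := sum_count F e
  have h6 : ∑ i : Fin (k * M), 1 = k * M := by simp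
  have h7 : ∑ _z : Fin k, M = k * M := by simp
  have h8 : ∑ z, (univ.filter fun i => e z ∈ F i).card = ∑ _z : Fin k, M := by
    apply le_antisymm h4
    calc ∑ _z : Fin k, M = k * M := h7
      _ = ∑ i : Fin (k * M), 1 := h6.symm
      _ ≤ ∑ i, (univ.filter fun z => e z ∈ F i).card := h3
      _ = _ := h5.symm
  have h9 : ∑ i : Fin (k * M), 1 = ∑ i, (univ.filter fun z => e z ∈ F i).card := by
    apply le_antisymm h3
    calc ∑ i, (univ.filter fun z => e z ∈ F i).card
        = ∑ z, (univ.filter fun i => e z ∈ F i).card := h5.symm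
      _ ≤ ∑ _z : Fin k, M := h4
      _ = k * M := h7
      _ = _ := h6.symm
  have h10 := (sum_eq_sum_iff_of_le h1).1 h9
  have h11 := (sum_eq_sum_iff_of_le h2).1 h8
  refine ⟨fun i z z' hz hz' => ?_, fun z => h11 z (mem_univ _)⟩
  have := (h10 i (mem_univ _)).symm
  rw [card_eq_one] at this
  obtain ⟨w, hw⟩ := this
  have ha : z ∈ (univ.filter fun z => e z ∈ F i) := by simpa using hz
  have hb : z' ∈ (univ.filter fun z => e z ∈ F i) := by simpa using hz'
  rw [hw, mem_singleton] at ha hb
  rw [ha, hb]

/-- `dom(G) = k` in terms of `Full`, if some closed neighbourhood has at most `k` elements. -/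
lemma hasDom_iff [DecidableEq V] (G : SimpleGraph V) {k : ℕ} (e : Fin k → V)
    (he : ∀ S, Dominating G S → ∃ z, e z ∈ S) : HasDom G k ↔ Full G k 1 := by
  constructor
  · rintro ⟨⟨F, hF, hd⟩, -⟩
    refine ⟨fun i => F (Fin.cast (Nat.mul_one k) i), fun i => hF _, fun v => ?_⟩
    rw [card_le_one]
    intro i hi j hj
    simp only [mem_filter, mem_univ, true_and] at hi hj
    by_contra hij
    have hij' : Fin.cast (Nat.mul_one k) i ≠ Fin.cast (Nat.mul_one k) j := by
      intro h
      exact hij (Fin.cast_injective _ h)
    exact disjoint_left.1 (hd _ _ hij') hi hj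
  · rintro ⟨F, hF, hM⟩
    refine ⟨⟨fun i => F (Fin.cast (Nat.mul_one k).symm i), fun i => hF _, fun i j hij => ?_⟩, ?_⟩
    · rw [disjoint_left]
      intro v hi hj
      have := card_le_one.1 (hM v) (Fin.cast (Nat.mul_one k).symm i) (by simpa using hi)
        (Fin.cast (Nat.mul_one k).symm j) (by simpa using hj)
      exact hij (Fin.cast_injective _ this)
    · rintro n ⟨F', hF', hd⟩
      have := count_le (M := 1) F' (fun v => ?_) e (fun i => he _ (hF' i))
      · simpa using this
      · rw [card_le_one]
        intro i hi j hj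
        simp only [mem_filter, mem_univ, true_and] at hi hj
        by_contra hij
        exact disjoint_left.1 (hd _ _ hij) hi hj

lemma le_maxMult [Fintype V] [DecidableEq V] {N : ℕ} (F : Fin N → Finset V) (v : V) :
    (univ.filter fun i => v ∈ F i).card ≤ maxMult F :=
  le_sup (f := fun v => (univ.filter fun i => v ∈ F i).card) (mem_univ v)

/-- `FDOM(G) = k` in terms of `Full`, if some closed neighbourhood has at most `k` elements. -/
lemma hasFDom_iff [Fintype V] [DecidableEq V] (G : SimpleGraph V) {k : ℕ} (hk : 0 < k)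
    (e : Fin k → V) (he : ∀ S, Dominating G S → ∃ z, e z ∈ S) :
    HasFDom G k ↔ ∃ M, 0 < M ∧ Full G k M := by
  constructor
  · rintro ⟨⟨N, F, hN, hF, hq⟩, -⟩
    have hm : 0 < maxMult F := by
      rcases Nat.eq_zero_or_pos (maxMult F) with h | h
      · rw [h] at hq
        simp at hq
        omega
      · exact h
    have hN' : N = k * maxMult F := by
      have hm' : (maxMult F : ℚ) ≠ 0 := by exact_mod_cast hm.ne'
      rw [eq_div_iff hm'] at hq
      exact_mod_cast hq.symm
    refine ⟨maxMult F, hm, fun i => F (Fin.cast hN'.symm i), fun i => hF _, fun v => ?_⟩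
    refine le_trans (le_of_eq ?_) (le_maxMult F v)
    apply card_bij (fun i _ => Fin.cast hN'.symm i)
    · intro i hi
      simpa using hi
    · intro i _ j _ h
      exact Fin.cast_injective _ h
    · intro j hj
      refine ⟨Fin.cast hN' j, by simpa using hj, by simp⟩
  · rintro ⟨M, hM0, F, hF, hM⟩
    have hle : maxMult F ≤ M := Finset.sup_le fun v _ => hM v
    have hge : k * M ≤ k * maxMult F := count_le F (le_maxMult F) e (fun i => he _ (hF i))
    have heq : maxMult F = M := le_antisymm hle (Nat.le_of_mul_le_mul_left hge hk)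
    refine ⟨⟨k * M, F, Nat.mul_pos hk hM0, hF, ?_⟩, ?_⟩
    · rw [heq]
      have : (M : ℚ) ≠ 0 := by exact_mod_cast hM0.ne'
      push_cast
      field_simp
    · rintro q ⟨N, F', hN, hF', rfl⟩
      have h := count_le F' (le_maxMult F') e (fun i => he _ (hF' i))
      apply div_le_of_le_mul₀ (by positivity) (by positivity)
      exact_mod_cast h

/-- Extending a partial equipartition. -/
lemma extend {ι Ω : Type*} [Fintype ι] [DecidableEq ι] [Fintype Ω] [DecidableEq Ω] {M : ℕ}
    (hΩ : Fintype.card Ω = Fintype.card ι * M) (S : Finset ι) (a : ι → Finset Ω)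
    (ha : ∀ s ∈ S, (a s).card = M) (hd : ∀ s ∈ S, ∀ t ∈ S, s ≠ t → Disjoint (a s) (a t)) :
    ∃ A : ι → Finset Ω, (∀ s ∈ S, A s = a s) ∧ (∀ i, (A i).card = M) ∧
      (∀ i j, i ≠ j → Disjoint (A i) (A j)) ∧ ∀ ω, ∃ i, ω ∈ A i := by
  induction h : (Sᶜ).card generalizing S a with
  | zero =>
    have hS : S = univ := by
      rw [card_eq_zero] at h
      rw [← compl_eq_empty_iff]
      exact h
    subst hS
    refine ⟨a, fun s _ => rfl, fun i => ha i (mem_univ _),
      fun i j hij => hd i (mem_univ _) j (mem_univ _) hij, fun ω => ?_⟩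
    have hcard : (univ.biUnion a).card = Fintype.card Ω := by
      rw [card_biUnion (fun i _ j _ hij => hd i (mem_univ _) j (mem_univ _) hij)]
      rw [sum_congr rfl (fun i _ => ha i (mem_univ _)), hΩ]
      simp
    have huniv := (card_eq_iff_eq_univ _).1 hcard
    have : ω ∈ univ.biUnion a := by rw [huniv]; exact mem_univ _
    simpa using this
  | succ n ih =>
    have hne : (Sᶜ).Nonempty := by
      rw [← card_pos]
      omega
    obtain ⟨i, hi⟩ := hne
    rw [mem_compl] at hi
    have hU : (S.biUnion a).card = S.card * M := by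
      rw [card_biUnion (fun i hi j hj hij => hd i hi j hj hij), sum_congr rfl ha]
      simp
    have hSc : S.card + (n + 1) = Fintype.card ι := by
      rw [← h, card_add_card_compl]
    have hle : M ≤ ((S.biUnion a)ᶜ).card := by
      rw [card_compl, hU, hΩ, ← hSc]
      have : (S.card + (n + 1)) * M = S.card * M + n * M + M := by ring
      rw [this]
      omega
    obtain ⟨B, hB, hBc⟩ := exists_subset_card_eq hle
    have hBd : ∀ s ∈ S, Disjoint B (a s) := by
      intro s hs
      rw [disjoint_left]
      intro ω hω hω'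
      have := hB hω
      rw [mem_compl, mem_biUnion] at this
      exact this ⟨s, hs, hω'⟩
    have hfin := ih (insert i S) (Function.update a i B) ?_ ?_ ?_
    · obtain ⟨A, h1, h2, h3, h4⟩ := hfin
      refine ⟨A, fun s hs => ?_, h2, h3, h4⟩
      rw [h1 s (mem_insert_of_mem hs), Function.update_of_ne]
      rintro rfl
      exact hi hs
    · intro s hs0
      rcases eq_or_ne s i with hsi | hsi
      · rw [hsi, Function.update_self]
        exact hBc
      · rw [Function.update_of_ne hsi]
        exact ha s (mem_of_mem_insert_of_ne hs0 hsi)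
    · intro s hs0 t ht0 hst
      rcases eq_or_ne s i with hsi | hsi
      · have hti : t ≠ i := fun h => hst (hsi.trans h.symm)
        rw [hsi, Function.update_self, Function.update_of_ne hti]
        exact hBd t (mem_of_mem_insert_of_ne ht0 hti)
      · have hs1 := mem_of_mem_insert_of_ne hs0 hsi
        rcases eq_or_ne t i with hti | hti
        · rw [hti, Function.update_self, Function.update_of_ne hsi]
          exact (hBd s hs1).symm
        · rw [Function.update_of_ne hsi, Function.update_of_ne hti]
          exact hd s hs1 t (mem_of_mem_insert_of_ne ht0 hti) hst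
    · rw [compl_insert, card_erase_of_mem (by simpa using hi), h]
      simp

lemma foldColorable_one {H : SimpleGraph V} {k : ℕ} : FoldColorable H k 1 ↔ H.Colorable k := by
  constructor
  · rintro ⟨c, hc, hd⟩
    have : ∀ v, ∃ x, c v = {x} := fun v => card_eq_one.1 (hc v)
    choose f hf using this
    refine ⟨SimpleGraph.Coloring.mk (fun v => Fin.cast (Nat.mul_one k) (f v)) ?_⟩
    intro u v huv h
    have h' : f u = f v := Fin.cast_injective _ h
    have := hd u v huv
    rw [hf, hf, h'] at this
    simp at this
  · rintro ⟨c⟩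
    refine ⟨fun v => {Fin.cast (Nat.mul_one k).symm (c v)}, fun v => card_singleton _, ?_⟩
    intro u v huv
    rw [disjoint_singleton]
    intro h
    exact c.valid huv (Fin.cast_injective _ h)

end Pool.Agent.helper13.FD
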