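import Mathlib
import Pool.Agent.helper13.FD.Basic

set_option autoImplicit false

/-!
# The regular graph encoding fractional colourings
-/

open Finset

namespace Pool.Agent.helper13.FD

variable {V : Type*}

/-- The block following the block `(h, j, t)` in the cyclic order
`(h, j, 0), (h, j, 1), (h, j, 2), (h, σ j, 0), …` of the blocks of `h`. -/
def nx (σ : Equiv.Perm V) (B : V × V × Fin 3) : V × V × Fin 3 :=
  if B.2.2 = 2 then (B.1, σ B.2.1, 0) else (B.1, B.2.1, B.2.2 + 1)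

/-- The preceding block. -/
def pv (σ : Equiv.Perm V) (B : V × V × Fin 3) : V × V × Fin 3 :=
  if B.2.2 = 0 then (B.1, σ.symm B.2.1, 2) else (B.1, B.2.1, B.2.2 - 1)

/-- The block `(j, h, t)` partner to `(h, j, t)`. -/
def pt (B : V × V × Fin 3) : V × V × Fin 3 := (B.2.1, B.1, B.2.2)

/-- The block `(h, j, t)` is an edge block if `t = 0` and `h j` is an edge of `H`. -/
def EdgeBlock (H : SimpleGraph V) (B : V × V × Fin 3) : Prop := B.2.2 = 0 ∧ H.Adj B.1 B.2.1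

lemma nx_pv (σ : Equiv.Perm V) (B : V × V × Fin 3) : nx σ (pv σ B) = B := by
  obtain ⟨h, j, t⟩ := B
  fin_cases t <;> simp [nx, pv]

lemma pv_nx (σ : Equiv.Perm V) (B : V × V × Fin 3) : pv σ (nx σ B) = B := by
  obtain ⟨h, j, t⟩ := B
  fin_cases t <;> simp [nx, pv]

lemma nx_ne (σ : Equiv.Perm V) (B : V × V × Fin 3) : nx σ B ≠ B := by
  obtain ⟨h, j, t⟩ := B
  fin_cases t <;> simp [nx]

lemma pv_ne (σ : Equiv.Perm V) (B : V × V × Fin 3) : pv σ B ≠ B := by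
  obtain ⟨h, j, t⟩ := B
  fin_cases t <;> simp [pv]

lemma pt_pt (B : V × V × Fin 3) : pt (pt B) = B := rfl

lemma pt_ne {H : SimpleGraph V} {B : V × V × Fin 3} (hB : EdgeBlock H B) : pt B ≠ B := by
  obtain ⟨h, j, t⟩ := B
  obtain ⟨-, h2⟩ := hB
  intro h3
  simp only [pt, Prod.mk.injEq] at h3
  exact h2.ne h3.2.1

lemma edgeBlock_pt {H : SimpleGraph V} {B : V × V × Fin 3} : EdgeBlock H (pt B) ↔ EdgeBlock H B := by
  obtain ⟨h, j, t⟩ := B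
  simp [EdgeBlock, pt, H.adj_comm]

/-- The pairs of labels `x, y` which are not joined inside the block `B`. -/
def Cut {d : ℕ} (H : SimpleGraph V) (B : V × V × Fin 3) (x y : Fin (d + 4)) : Prop :=
  x = 0 ∧ (y = 1 ∨ y = 2 ∨ y = 3 ∧ EdgeBlock H B)

/-- The graph. Its vertices are the pairs (block, label). -/
def gadget (d : ℕ) (σ : Equiv.Perm V) (H : SimpleGraph V) :
    SimpleGraph ((V × V × Fin 3) × Fin (d + 4)) :=
  SimpleGraph.fromRel fun p q =>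
    (p.1 = q.1 ∧ ¬ Cut H p.1 p.2 q.2 ∧ ¬ Cut H p.1 q.2 p.2) ∨
    (q.1 = nx σ p.1 ∧ (p.2 = 0 ∧ q.2 = 2 ∨ p.2 = 1 ∧ q.2 = 0)) ∨
    (EdgeBlock H p.1 ∧ q.1 = pt p.1 ∧ (p.2 = 0 ∧ q.2 = 0 ∨ p.2 = 3 ∧ q.2 = 3))

open Classical in
/-- The closed neighbourhood of `p`, enumerated by labels. -/
noncomputable def nb {d : ℕ} (σ : Equiv.Perm V) (H : SimpleGraph V)
    (p : (V × V × Fin 3) × Fin (d + 4)) (z : Fin (d + 4)) : (V × V × Fin 3) × Fin (d + 4) :=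
  if p.2 = 0 ∧ z = 1 then (nx σ p.1, 2)
  else if p.2 = 1 ∧ z = 0 then (nx σ p.1, 0)
  else if p.2 = 0 ∧ z = 2 then (pv σ p.1, 1)
  else if p.2 = 2 ∧ z = 0 then (pv σ p.1, 0)
  else if p.2 = 0 ∧ z = 3 ∧ EdgeBlock H p.1 then (pt p.1, 0)
  else if p.2 = 3 ∧ z = 0 ∧ EdgeBlock H p.1 then (pt p.1, 3)
  else (p.1, z)

section
variable {d : ℕ}

lemma v1 : ((1 : Fin (d + 4)) : ℕ) = 1 := by
  show 1 % (d + 4) = 1
  exact Nat.mod_eq_of_lt (by omega)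
lemma v2 : ((2 : Fin (d + 4)) : ℕ) = 2 := by
  show 2 % (d + 4) = 2
  exact Nat.mod_eq_of_lt (by omega)
lemma v3 : ((3 : Fin (d + 4)) : ℕ) = 3 := by
  show 3 % (d + 4) = 3
  exact Nat.mod_eq_of_lt (by omega)
lemma f01 : (0 : Fin (d + 4)) ≠ 1 := by rw [Ne, Fin.ext_iff, v1, Fin.val_zero]; omega
lemma f02 : (0 : Fin (d + 4)) ≠ 2 := by rw [Ne, Fin.ext_iff, v2, Fin.val_zero]; omega
lemma f03 : (0 : Fin (d + 4)) ≠ 3 := by rw [Ne, Fin.ext_iff, v3, Fin.val_zero]; omega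
lemma f12 : (1 : Fin (d + 4)) ≠ 2 := by rw [Ne, Fin.ext_iff, v1, v2]; omega
lemma f13 : (1 : Fin (d + 4)) ≠ 3 := by rw [Ne, Fin.ext_iff, v1, v3]; omega
lemma f23 : (2 : Fin (d + 4)) ≠ 3 := by rw [Ne, Fin.ext_iff, v2, v3]; omega

/-- The label of the vertex `nb σ H p z` as seen from `p`: a case distinction for labels. -/
lemma label_cases (x : Fin (d + 4)) : x = 0 ∨ x = 1 ∨ x = 2 ∨ x = 3 ∨
    (x ≠ 0 ∧ x ≠ 1 ∧ x ≠ 2 ∧ x ≠ 3) := by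
  by_cases h0 : x = 0
  · exact Or.inl h0
  by_cases h1 : x = 1
  · exact Or.inr (Or.inl h1)
  by_cases h2 : x = 2
  · exact Or.inr (Or.inr (Or.inl h2))
  by_cases h3 : x = 3
  · exact Or.inr (Or.inr (Or.inr (Or.inl h3)))
  exact Or.inr (Or.inr (Or.inr (Or.inr ⟨h0, h1, h2, h3⟩)))

end

variable {d : ℕ} (σ : Equiv.Perm V) (H : SimpleGraph V)

lemma nb_01 (B : V × V × Fin 3) : nb (d := d) σ H (B, 0) 1 = (nx σ B, 2) := by simp [nb]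
lemma nb_10 (B : V × V × Fin 3) : nb (d := d) σ H (B, 1) 0 = (nx σ B, 0) := by simp [nb, f01.symm]
lemma nb_02 (B : V × V × Fin 3) : nb (d := d) σ H (B, 0) 2 = (pv σ B, 1) := by
  simp [nb, f12.symm]
lemma nb_20 (B : V × V × Fin 3) : nb (d := d) σ H (B, 2) 0 = (pv σ B, 0) := by
  simp [nb, f02.symm, f12.symm]
lemma nb_03 {B : V × V × Fin 3} (hB : EdgeBlock H B) :
    nb (d := d) σ H (B, 0) 3 = (pt B, 0) := by
  simp [nb, f13.symm, f23.symm, hB, f01, f02]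
lemma nb_30 {B : V × V × Fin 3} (hB : EdgeBlock H B) :
    nb (d := d) σ H (B, 3) 0 = (pt B, 3) := by
  simp [nb, f13.symm, f23.symm, hB, f03.symm]
lemma nb_03' {B : V × V × Fin 3} (hB : ¬ EdgeBlock H B) :
    nb (d := d) σ H (B, 0) 3 = (B, 3) := by
  simp [nb, f13.symm, f23.symm, hB, f01, f02]
lemma nb_30' {B : V × V × Fin 3} (hB : ¬ EdgeBlock H B) :
    nb (d := d) σ H (B, 3) 0 = (B, 0) := by
  simp [nb, f13.symm, f23.symm, hB, f03.symm]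
lemma nb_0 (B : V × V × Fin 3) {z : Fin (d + 4)} (h1 : z ≠ 1) (h2 : z ≠ 2) (h3 : z ≠ 3) :
    nb σ H (B, 0) z = (B, z) := by
  simp [nb, h1, h2, h3, f01, f02, f03]
lemma nb_1 (B : V × V × Fin 3) {z : Fin (d + 4)} (h0 : z ≠ 0) :
    nb σ H (B, 1) z = (B, z) := by
  simp [nb, h0, f01.symm, f12, f13]
lemma nb_2 (B : V × V × Fin 3) {z : Fin (d + 4)} (h0 : z ≠ 0) :
    nb σ H (B, 2) z = (B, z) := by
  simp [nb, h0, f02.symm, f12.symm, f23]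
lemma nb_3 (B : V × V × Fin 3) {z : Fin (d + 4)} (h0 : z ≠ 0) :
    nb σ H (B, 3) z = (B, z) := by
  simp [nb, h0, f03.symm]
lemma nb_other (B : V × V × Fin 3) {x : Fin (d + 4)} (h0 : x ≠ 0) (h1 : x ≠ 1) (h2 : x ≠ 2)
    (h3 : x ≠ 3) (z : Fin (d + 4)) : nb σ H (B, x) z = (B, z) := by
  simp [nb, h0, h1, h2, h3]

lemma nb_self (p : (V × V × Fin 3) × Fin (d + 4)) : nb σ H p p.2 = p := by
  obtain ⟨B, x⟩ := p
  rcases label_cases x with rfl | rfl | rfl | rfl | ⟨h0, h1, h2, h3⟩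
  · exact nb_0 σ H B f01 f02 f03
  · exact nb_1 σ H B f01.symm
  · exact nb_2 σ H B f02.symm
  · exact nb_3 σ H B f03.symm
  · exact nb_other σ H B h0 h1 h2 h3 x

lemma nb_spec (p : (V × V × Fin 3) × Fin (d + 4)) (z : Fin (d + 4)) :
    nb σ H p z = (p.1, z) ∨ ((nb σ H p z).1 ≠ p.1 ∧
      (p.2 = 0 ∧ z = 1 ∧ (nb σ H p z).2 = 2 ∨ p.2 = 0 ∧ z = 2 ∧ (nb σ H p z).2 = 1 ∨
        p.2 = 0 ∧ z = 3 ∧ (nb σ H p z).2 = 0 ∨ p.2 ≠ 0 ∧ z = 0)) := by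
  unfold nb
  split_ifs with h1 h2 h3 h4 h5 h6
  · exact Or.inr ⟨nx_ne σ _, Or.inl ⟨h1.1, h1.2, rfl⟩⟩
  · exact Or.inr ⟨nx_ne σ _, Or.inr (Or.inr (Or.inr ⟨by rw [h2.1]; exact f01.symm, h2.2⟩))⟩
  · exact Or.inr ⟨pv_ne σ _, Or.inr (Or.inl ⟨h3.1, h3.2, rfl⟩)⟩
  · exact Or.inr ⟨pv_ne σ _, Or.inr (Or.inr (Or.inr ⟨by rw [h4.1]; exact f02.symm, h4.2⟩))⟩
  · exact Or.inr ⟨pt_ne h5.2.2, Or.inr (Or.inr (Or.inl ⟨h5.1, h5.2.1, rfl⟩))⟩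
  · exact Or.inr ⟨pt_ne h6.2.2, Or.inr (Or.inr (Or.inr ⟨by rw [h6.1]; exact f03.symm, h6.2.1⟩))⟩
  · exact Or.inl rfl

lemma nb_injective (p : (V × V × Fin 3) × Fin (d + 4)) : Function.Injective (nb σ H p) := by
  intro z w h
  rcases nb_spec σ H p z with hz | ⟨hz, hz'⟩ <;> rcases nb_spec σ H p w with hw | ⟨hw, hw'⟩
  · rw [hz, hw] at h
    exact congrArg Prod.snd h
  · rw [← h, hz] at hw
    exact absurd rfl hw
  · rw [h, hw] at hz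
    exact absurd rfl hz
  · rw [← h] at hw'
    rcases hz' with ⟨a1, a2, a3⟩ | ⟨a1, a2, a3⟩ | ⟨a1, a2, a3⟩ | ⟨a1, a2⟩ <;>
    rcases hw' with ⟨b1, b2, b3⟩ | ⟨b1, b2, b3⟩ | ⟨b1, b2, b3⟩ | ⟨b1, b2⟩
    · rw [a2, b2]
    · exact absurd (a3.symm.trans b3) f12.symm
    · exact absurd (a3.symm.trans b3) f02.symm
    · exact absurd a1 b1
    · exact absurd (a3.symm.trans b3) f12
    · rw [a2, b2]
    · exact absurd (a3.symm.trans b3) f01.symm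
    · exact absurd a1 b1
    · exact absurd (a3.symm.trans b3) f02
    · exact absurd (a3.symm.trans b3) f01
    · rw [a2, b2]
    · exact absurd a1 b1
    · exact absurd b1 a1
    · exact absurd b1 a1
    · exact absurd b1 a1
    · rw [a2, b2]

lemma gadget_adj_iff (p q : (V × V × Fin 3) × Fin (d + 4)) :
    (gadget d σ H).Adj p q ↔ ∃ z, z ≠ p.2 ∧ nb σ H p z = q := by
  constructor
  · obtain ⟨B, x⟩ := p
    obtain ⟨C, y⟩ := q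
    intro h
    rw [gadget, SimpleGraph.fromRel_adj] at h
    obtain ⟨hne, h⟩ := h
    have same : B = C → ¬ Cut H B x y → ¬ Cut H B y x →
        ∃ z, z ≠ (B, x).2 ∧ nb σ H (B, x) z = (C, y) := by
      rintro rfl h1 h2
      refine ⟨y, fun h => hne (by rw [h]), ?_⟩
      unfold nb
      rw [if_neg, if_neg, if_neg, if_neg, if_neg, if_neg]
      · rintro ⟨a1, a2, a3⟩
        exact h2 ⟨a2, Or.inr (Or.inr ⟨a1, a3⟩)⟩
      · rintro ⟨a1, a2, a3⟩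
        exact h1 ⟨a1, Or.inr (Or.inr ⟨a2, a3⟩)⟩
      · rintro ⟨a1, a2⟩
        exact h2 ⟨a2, Or.inr (Or.inl a1)⟩
      · rintro ⟨a1, a2⟩
        exact h1 ⟨a1, Or.inr (Or.inl a2)⟩
      · rintro ⟨a1, a2⟩
        exact h2 ⟨a2, Or.inl a1⟩
      · rintro ⟨a1, a2⟩
        exact h1 ⟨a1, Or.inl a2⟩
    rcases h with (⟨h1, h2, h3⟩ | ⟨h1, h2⟩ | ⟨h1, h2, h3⟩) | (⟨h1, h2, h3⟩ | ⟨h1, h2⟩ | ⟨h1, h2, h3⟩)
    · exact same h1 h2 h3
    · dsimp only at h1 h2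
      subst h1
      rcases h2 with ⟨rfl, rfl⟩ | ⟨rfl, rfl⟩
      · exact ⟨1, f01.symm, nb_01 σ H B⟩
      · exact ⟨0, f01, nb_10 σ H B⟩
    · dsimp only at h1 h2 h3
      subst h2
      rcases h3 with ⟨rfl, rfl⟩ | ⟨rfl, rfl⟩
      · exact ⟨3, f03.symm, nb_03 σ H h1⟩
      · exact ⟨0, f03, nb_30 σ H h1⟩
    · dsimp only at h1 h2 h3
      subst h1
      exact same rfl h3 h2
    · dsimp only at h1 h2
      have h1' : C = pv σ B := by rw [h1, pv_nx]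
      subst h1'
      rcases h2 with ⟨rfl, rfl⟩ | ⟨rfl, rfl⟩
      · exact ⟨0, f02, nb_20 σ H B⟩
      · exact ⟨2, f02.symm, nb_02 σ H B⟩
    · dsimp only at h1 h2 h3
      subst h2
      have h1' : EdgeBlock H (pt C) := edgeBlock_pt.2 h1
      rcases h3 with ⟨rfl, rfl⟩ | ⟨rfl, rfl⟩
      · exact ⟨3, f03.symm, nb_03 σ H h1'⟩
      · exact ⟨0, f03, nb_30 σ H h1'⟩
  · rintro ⟨z, hz, rfl⟩
    rw [gadget, SimpleGraph.fromRel_adj]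
    refine ⟨fun h => hz (nb_injective σ H p (h.symm.trans (nb_self σ H p).symm)), ?_⟩
    obtain ⟨B, x⟩ := p
    unfold nb
    split_ifs with h1 h2 h3 h4 h5 h6
    · exact Or.inl (Or.inr (Or.inl ⟨rfl, Or.inl ⟨h1.1, rfl⟩⟩))
    · exact Or.inl (Or.inr (Or.inl ⟨rfl, Or.inr ⟨h2.1, rfl⟩⟩))
    · exact Or.inr (Or.inr (Or.inl ⟨(nx_pv σ B).symm, Or.inr ⟨rfl, h3.1⟩⟩))
    · exact Or.inr (Or.inr (Or.inl ⟨(nx_pv σ B).symm, Or.inl ⟨rfl, h4.1⟩⟩))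
    · exact Or.inl (Or.inr (Or.inr ⟨h5.2.2, rfl, Or.inl ⟨h5.1, rfl⟩⟩))
    · exact Or.inl (Or.inr (Or.inr ⟨h6.2.2, rfl, Or.inr ⟨h6.1, rfl⟩⟩))
    · refine Or.inl (Or.inl ⟨rfl, ?_, ?_⟩)
      · rintro ⟨a1, a2 | a2 | ⟨a2, a3⟩⟩
        · exact h1 ⟨a1, a2⟩
        · exact h3 ⟨a1, a2⟩
        · exact h5 ⟨a1, a2, a3⟩
      · rintro ⟨a1, a2 | a2 | ⟨a2, a3⟩⟩
        · exact h2 ⟨a2, a1⟩
        · exact h4 ⟨a2, a1⟩
        · exact h6 ⟨a2, a1, a3⟩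

end Pool.Agent.helper13.FD
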