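import Mathlib
import Pool.Agent.helper13.FD.Regular

set_option autoImplicit false

/-!
# Perfect families of dominating sets of the regular graph are fractional colourings
-/

open Finset

namespace Pool.Agent.helper13.FD

variable {V : Type*} {d : ℕ} (σ : Equiv.Perm V) (H : SimpleGraph V)

lemma dominating_iff (S : Finset ((V × V × Fin 3) × Fin (d + 4))) :
    Dominating (gadget d σ H) S ↔ ∀ p, ∃ z, nb σ H p z ∈ S := by
  classical
  constructor
  · intro h p
    by_cases hp : p ∈ S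
    · exact ⟨p.2, by rwa [nb_self]⟩
    · obtain ⟨u, hu, hpu⟩ := h p hp
      obtain ⟨z, -, rfl⟩ := (gadget_adj_iff σ H p u).1 hpu
      exact ⟨z, hu⟩
  · intro h p hp
    obtain ⟨z, hz⟩ := h p
    refine ⟨_, hz, (gadget_adj_iff σ H p _).2 ⟨z, ?_, rfl⟩⟩
    rintro rfl
    rw [nb_self] at hz
    exact hp hz

lemma gadget_regular [Fintype V] (p : (V × V × Fin 3) × Fin (d + 4))
    [Fintype ((gadget d σ H).neighborSet p)] : (gadget d σ H).degree p = d + 3 := by
  classical
  have h : (gadget d σ H).neighborFinset p = (univ.erase p.2).image (nb σ H p) := by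
    ext q
    rw [SimpleGraph.mem_neighborFinset, gadget_adj_iff]
    simp
  rw [← SimpleGraph.card_neighborFinset_eq_degree, h, card_image_of_injective _ (nb_injective σ H p),
    card_erase_of_mem (mem_univ _)]
  simp

variable {σ H}

section forward

variable [DecidableEq V] {M : ℕ}
  {F : Fin ((d + 4) * M) → Finset ((V × V × Fin 3) × Fin (d + 4))}

lemma fwd_unique (hF : ∀ i, Dominating (gadget d σ H) (F i))
    (hM : ∀ v, (univ.filter fun i => v ∈ F i).card ≤ M)
    (p : (V × V × Fin 3) × Fin (d + 4)) :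
    (∀ i z z', nb σ H p z ∈ F i → nb σ H p z' ∈ F i → z = z') ∧
      ∀ z, (univ.filter fun i => nb σ H p z ∈ F i).card = M :=
  exact_of_full F hM (nb σ H p) fun i => (dominating_iff σ H (F i)).1 (hF i) p

/-- In a block which is not an edge block, and for a label `x ≠ 0` whose only exceptional
neighbour is `q` instead of `(B, 0)`, membership of `q` and of `(B, 0)` is equivalent. -/
lemma fwd_swap (hF : ∀ i, Dominating (gadget d σ H) (F i))
    (hM : ∀ v, (univ.filter fun i => v ∈ F i).card ≤ M)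
    {B : V × V × Fin 3} (hB : ¬ EdgeBlock H B) {x : Fin (d + 4)} (hx : ∀ z, z ≠ 0 →
      nb σ H (B, x) z = (B, z)) (i : Fin ((d + 4) * M)) :
    nb σ H (B, x) 0 ∈ F i ↔ (B, (0 : Fin (d + 4))) ∈ F i := by
  have h3 : ∀ z, nb (d := d) σ H (B, 3) z = (B, z) := by
    intro z
    by_cases hz : z = 0
    · subst hz
      exact nb_30' σ H hB
    · exact nb_3 σ H B hz
  have u3 := (fwd_unique hF hM (B, 3)).1 i
  have ux := (fwd_unique hF hM (B, x)).1 i
  obtain ⟨z3, hz3⟩ := (dominating_iff σ H (F i)).1 (hF i) (B, 3)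
  obtain ⟨zx, hzx⟩ := (dominating_iff σ H (F i)).1 (hF i) (B, x)
  constructor
  · intro h
    by_cases hz : z3 = 0
    · rw [hz, h3] at hz3
      exact hz3
    · exfalso
      rw [h3, ← hx z3 hz] at hz3
      exact hz (ux _ _ hz3 h)
  · intro h
    by_cases hz : zx = 0
    · rw [hz] at hzx
      exact hzx
    · exfalso
      rw [hx zx hz, ← h3 zx] at hzx
      rw [← h3 0] at h
      exact hz (u3 _ _ hzx h)

lemma fwd_row (hσ : σ.IsCycleOn Set.univ) (hF : ∀ i, Dominating (gadget d σ H) (F i))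
    (hM : ∀ v, (univ.filter fun i => v ∈ F i).card ≤ M) (i : Fin ((d + 4) * M)) (h j j' : V) :
    ((h, j, (0 : Fin 3)), (0 : Fin (d + 4))) ∈ F i ↔
      ((h, j', (0 : Fin 3)), (0 : Fin (d + 4))) ∈ F i := by
  have step : ∀ j, ((h, j, (0 : Fin 3)), (0 : Fin (d + 4))) ∈ F i ↔
      ((h, σ j, (0 : Fin 3)), (0 : Fin (d + 4))) ∈ F i := by
    intro j
    have e1 : ¬ EdgeBlock H (h, j, (1 : Fin 3)) := by rintro ⟨h1, -⟩; simp at h1
    have e2 : ¬ EdgeBlock H (h, j, (2 : Fin 3)) := by rintro ⟨h1, -⟩; simp at h1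
    have a := fwd_swap hF hM e1 (x := 2) (fun z hz => nb_2 σ H _ hz) i
    have b := fwd_swap hF hM e1 (x := 1) (fun z hz => nb_1 σ H _ hz) i
    have c := fwd_swap hF hM e2 (x := 1) (fun z hz => nb_1 σ H _ hz) i
    rw [nb_20] at a
    rw [nb_10] at b c
    have p1 : pv σ (h, j, (1 : Fin 3)) = (h, j, 0) := by simp [pv]
    have n1 : nx σ (h, j, (1 : Fin 3)) = (h, j, 2) := by
      simp [nx]
    have n2 : nx σ (h, j, (2 : Fin 3)) = (h, σ j, 0) := by simp [nx]
    rw [p1] at a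
    rw [n1] at b
    rw [n2] at c
    rw [a, ← b, ← c]
  have all : ∀ n : ℤ, ((h, j, (0 : Fin 3)), (0 : Fin (d + 4))) ∈ F i ↔
      ((h, (σ ^ n) j, (0 : Fin 3)), (0 : Fin (d + 4))) ∈ F i := by
    intro n
    induction n with
    | zero => simp
    | succ n ih =>
      rw [ih, step, ← Equiv.Perm.mul_apply, ← zpow_one_add, add_comm (1 : ℤ) n]
    | pred n ih =>
      rw [ih, step ((σ ^ (-(n : ℤ) - 1)) j), ← Equiv.Perm.mul_apply, ← zpow_one_add]
      simp
  obtain ⟨n, hn⟩ := hσ.2 (Set.mem_univ j) (Set.mem_univ j')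
  rw [all n, hn]

/-- From dominating sets to colourings. -/
lemma foldColorable_of_full (hσ : σ.IsCycleOn Set.univ) (hfull : Full (gadget d σ H) (d + 4) M) :
    FoldColorable H (d + 4) M := by
  obtain ⟨F, hF, hM⟩ := hfull
  refine ⟨fun h => univ.filter fun i => ((h, h, (0 : Fin 3)), (0 : Fin (d + 4))) ∈ F i,
    fun h => ?_, fun h j hhj => ?_⟩
  · have := (fwd_unique hF hM ((h, h, (0 : Fin 3)), (0 : Fin (d + 4)))).2 0
    have hs := nb_self σ H ((h, h, (0 : Fin 3)), (0 : Fin (d + 4)))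
    rw [show (((h, h, (0 : Fin 3)), (0 : Fin (d + 4))).2 : Fin (d + 4)) = 0 from rfl] at hs
    rw [hs] at this
    convert this
  · rw [disjoint_left]
    intro i hi hj
    simp only [mem_filter, mem_univ, true_and] at hi hj
    rw [fwd_row hσ hF hM i h h j] at hi
    rw [fwd_row hσ hF hM i j j h] at hj
    have hB : EdgeBlock H (h, j, (0 : Fin 3)) := ⟨rfl, hhj⟩
    have h0 := nb_self σ H ((h, j, (0 : Fin 3)), (0 : Fin (d + 4)))
    rw [show (((h, j, (0 : Fin 3)), (0 : Fin (d + 4))).2 : Fin (d + 4)) = 0 from rfl] at h0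
    have h3 := nb_03 (d := d) σ H hB
    rw [← h0] at hi
    rw [show ((j, h, (0 : Fin 3)), (0 : Fin (d + 4))) = (pt (h, j, (0 : Fin 3)), 0) from rfl,
      ← h3] at hj
    exact f03 ((fwd_unique hF hM _).1 i _ _ hi hj)

end forward

section backward

variable [Fintype V] [DecidableEq V] {M : ℕ}

lemma exists_avoid {k M : ℕ} (A B C : Finset (Fin ((k + 4) * M))) (hA : A.card = M)
    (hB : B.card = M) (hC : C.card = M) :
    ∃ Z : Finset (Fin ((k + 4) * M)), Z.card = M ∧ Disjoint A Z ∧ Disjoint B Z ∧ Disjoint C Z := by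
  have h1 : (A ∪ B ∪ C).card ≤ 3 * M := by
    calc (A ∪ B ∪ C).card ≤ (A ∪ B).card + C.card := card_union_le _ _
      _ ≤ A.card + B.card + C.card := by gcongr; exact card_union_le _ _
      _ = 3 * M := by rw [hA, hB, hC]; ring
  have h2 : M ≤ ((A ∪ B ∪ C)ᶜ).card := by
    rw [card_compl, Fintype.card_fin]
    have : (k + 4) * M = k * M + 3 * M + M := by ring
    omega
  obtain ⟨Z, hZ, hZc⟩ := exists_subset_card_eq h2
  refine ⟨Z, hZc, ?_, ?_, ?_⟩ <;> rw [disjoint_left] <;> intro ω hω hω' <;> have := hZ hω' <;>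
    rw [mem_compl] at this <;> apply this <;> simp [hω]

omit [Fintype V] [DecidableEq V] in
lemma exists_labels (c : V → Finset (Fin ((d + 4) * M))) (hc : ∀ v, (c v).card = M)
    (hd : ∀ u v, H.Adj u v → Disjoint (c u) (c v)) :
    ∃ A : (V × V × Fin 3) → Fin (d + 4) → Finset (Fin ((d + 4) * M)),
      (∀ B x, (A B x).card = M) ∧ (∀ B ω, ∃ x, ω ∈ A B x) ∧
      (∀ B, A (nx σ B) 2 = A B 1) ∧ (∀ B, A (nx σ B) 0 = A B 0) ∧
      (∀ B, EdgeBlock H B → A (pt B) 0 = A B 3) ∧ (∀ B, EdgeBlock H B → A (pt B) 3 = A B 0) := by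
  classical
  have hΩ : Fintype.card (Fin ((d + 4) * M)) = Fintype.card (Fin (d + 4)) * M := by simp
  -- the blocks `(h, j, 0)`
  have h0 : ∀ h j, ∃ L : Fin (d + 4) → Finset (Fin ((d + 4) * M)),
      L 0 = c h ∧ (H.Adj h j → L 3 = c j) ∧ (∀ x, (L x).card = M) ∧
      (∀ x y, x ≠ y → Disjoint (L x) (L y)) ∧ ∀ ω, ∃ x, ω ∈ L x := by
    intro h j
    by_cases hhj : H.Adj h j
    · have hex := extend hΩ {0, 3} (fun x => if x = 0 then c h else c j) ?_ ?_
      · obtain ⟨L, h1, h2, h3, h4⟩ := hex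
        refine ⟨L, ?_, fun _ => ?_, h2, h3, h4⟩
        · rw [h1 0 (by simp)]; simp
        · rw [h1 3 (by simp)]; simp [f03.symm]
      · intro s _
        split_ifs <;> exact hc _
      · intro s hs t ht hst
        simp only [mem_insert, mem_singleton] at hs ht
        rcases hs with rfl | rfl <;> rcases ht with rfl | rfl
        · exact absurd rfl hst
        · simpa [f03.symm] using hd _ _ hhj
        · simpa [f03.symm] using hd _ _ hhj.symm
        · exact absurd rfl hst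
    · have hex := extend hΩ {0} (fun _ => c h) ?_ ?_
      · obtain ⟨L, h1, h2, h3, h4⟩ := hex
        exact ⟨L, h1 0 (by simp), fun h => absurd h hhj, h2, h3, h4⟩
      · intro s _
        exact hc _
      · intro s hs t ht hst
        simp only [mem_singleton] at hs ht
        exact absurd (hs.trans ht.symm) hst
  choose L hL0 hL3 hLc hLd hLω using h0
  have hZ : ∀ h j, ∃ Z : Finset (Fin ((d + 4) * M)), Z.card = M ∧ Disjoint (c h) Z ∧
      Disjoint (L h j 1) Z ∧ Disjoint (L h (σ j) 2) Z := fun h j =>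
    exists_avoid _ _ _ (hc h) (hLc h j 1) (hLc h (σ j) 2)
  choose Z hZc hZ1 hZ2 hZ3 using hZ
  -- three prescribed labels
  have h3l : ∀ X Y W : Finset (Fin ((d + 4) * M)), X.card = M → Y.card = M → W.card = M →
      Disjoint X Y → Disjoint X W → Disjoint Y W →
      ∃ P : Fin (d + 4) → Finset (Fin ((d + 4) * M)), P 0 = X ∧ P 1 = Y ∧ P 2 = W ∧
        (∀ x, (P x).card = M) ∧ ∀ ω, ∃ x, ω ∈ P x := by
    intro X Y W hX hY hW hXY hXW hYW
    have hex := extend hΩ {0, 1, 2}
      (fun x => if x = 0 then X else if x = 1 then Y else W) ?_ ?_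
    · obtain ⟨P, h1, h2, h3, h4⟩ := hex
      refine ⟨P, ?_, ?_, ?_, h2, h4⟩
      · rw [h1 0 (by simp)]; simp
      · rw [h1 1 (by simp)]; simp [f01.symm]
      · rw [h1 2 (by simp)]; simp [f02.symm, f12.symm]
    · intro s _
      split_ifs <;> assumption
    · intro s hs t ht hst
      simp only [mem_insert, mem_singleton] at hs ht
      rcases hs with rfl | rfl | rfl <;> rcases ht with rfl | rfl | rfl
      · exact absurd rfl hst
      · simpa [f01.symm] using hXY
      · simpa [f02.symm, f12.symm] using hXW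
      · simpa [f01.symm] using hXY.symm
      · exact absurd rfl hst
      · simpa [f01.symm, f02.symm, f12.symm] using hYW
      · simpa [f02.symm, f12.symm] using hXW.symm
      · simpa [f01.symm, f02.symm, f12.symm] using hYW.symm
      · exact absurd rfl hst
  have hcL1 : ∀ h j, Disjoint (c h) (L h j 1) := by
    intro h j
    rw [← hL0 h j]
    exact hLd h j 0 1 f01
  have hcL2 : ∀ h j, Disjoint (c h) (L h j 2) := by
    intro h j
    rw [← hL0 h j]
    exact hLd h j 0 2 f02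
  choose P hP0 hP1 hP2 hPc hPω using fun h j => h3l (c h) (Z h j) (L h j 1) (hc h) (hZc h j)
    (hLc h j 1) (hZ1 h j) (hcL1 h j) (hZ2 h j).symm
  choose R hR0 hR1 hR2 hRc hRω using fun h j => h3l (c h) (L h (σ j) 2) (Z h j) (hc h)
    (hLc h (σ j) 2) (hZc h j) (hcL2 h (σ j)) (hZ1 h j) (hZ3 h j)
  have t3 : ∀ t : Fin 3, t = 0 ∨ t = 1 ∨ t = 2 := by decide
  refine ⟨fun B => if B.2.2 = 0 then L B.1 B.2.1 else if B.2.2 = 1 then P B.1 B.2.1 else
    R B.1 B.2.1, ?_, ?_, ?_, ?_, ?_, ?_⟩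
  · rintro ⟨h, j, t⟩ x
    dsimp only
    split_ifs
    · exact hLc _ _ _
    · exact hPc _ _ _
    · exact hRc _ _ _
  · rintro ⟨h, j, t⟩ ω
    dsimp only
    split_ifs
    · exact hLω _ _ _
    · exact hPω _ _ _
    · exact hRω _ _ _
  · rintro ⟨h, j, t⟩
    rcases t3 t with rfl | rfl | rfl
    · simp [nx, hP2]
    · simp [nx, hR2, hP1]
    · simp [nx, hR1]
  · rintro ⟨h, j, t⟩
    rcases t3 t with rfl | rfl | rfl
    · simp [nx, hP0, hL0]
    · simp [nx, hR0, hP0]
    · simp [nx, hR0, hL0]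
  · rintro ⟨h, j, t⟩ ⟨h1, h2⟩
    dsimp only at h1 h2
    subst h1
    simp [pt, hL0, hL3 h j h2]
  · rintro ⟨h, j, t⟩ ⟨h1, h2⟩
    dsimp only at h1 h2
    subst h1
    simp [pt, hL0, hL3 j h h2.symm]

lemma full_of_foldColorable (hfold : FoldColorable H (d + 4) M) :
    Full (gadget d σ H) (d + 4) M := by
  classical
  obtain ⟨c, hc, hd⟩ := hfold
  obtain ⟨A, h1, h2, h3, h4, h5, h6⟩ := exists_labels (σ := σ) c hc hd
  have h3' : ∀ B, A (pv σ B) 1 = A B 2 := fun B => by
    rw [← h3 (pv σ B), nx_pv]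
  have h4' : ∀ B, A (pv σ B) 0 = A B 0 := fun B => by
    rw [← h4 (pv σ B), nx_pv]
  have key : ∀ p z, A (nb σ H p z).1 (nb σ H p z).2 = A p.1 z := by
    rintro ⟨B, x⟩ z
    unfold nb
    split_ifs with a1 a2 a3 a4 a5 a6
    · rw [a1.2]; exact h3 B
    · rw [a2.2]; exact h4 B
    · rw [a3.2]; exact h3' B
    · rw [a4.2]; exact h4' B
    · rw [a5.2.1]; exact h5 B a5.2.2
    · rw [a6.2.1]; exact h6 B a6.2.2
    · rfl
  refine ⟨fun i => univ.filter fun p => i ∈ A p.1 p.2, fun i => ?_, fun v => ?_⟩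
  · rw [dominating_iff]
    intro p
    obtain ⟨x, hx⟩ := h2 p.1 i
    refine ⟨x, ?_⟩
    rw [mem_filter, key]
    exact ⟨mem_univ _, hx⟩
  · refine le_of_eq (Eq.trans ?_ (h1 v.1 v.2))
    congr 1
    ext i
    simp

end backward

theorem full_gadget_iff [Fintype V] [DecidableEq V] {M : ℕ} (hσ : σ.IsCycleOn Set.univ) :
    Full (gadget d σ H) (d + 4) M ↔ FoldColorable H (d + 4) M :=
  ⟨foldColorable_of_full hσ, full_of_foldColorable⟩

end Pool.Agent.helper13.FD
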