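import Mathlib
import Pool.Agent.helper13.FD.Basic

set_option autoImplicit false

/-!
# The graph of minimum degree `d + 2` encoding fractional colourings
-/

open Finset

namespace Pool.Agent.helper13.FD

variable {V : Type*}

/-- For every vertex `h` of `H` a complete graph on `(h, 0), …, (h, d + 2)`; for every dart (edge
with a direction) `e = u v` of `H` a complete graph on `d + 1` new vertices, each of them joined
to `(u, 0)` and to `(v, 0)`. -/
def gadget2 (d : ℕ) (H : SimpleGraph V) :
    SimpleGraph ((V × Fin (d + 3)) ⊕ (H.Dart × Fin (d + 1))) :=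
  SimpleGraph.fromRel fun p q =>
    match p, q with
    | Sum.inl a, Sum.inl b => a.1 = b.1
    | Sum.inr a, Sum.inr b => a.1 = b.1
    | Sum.inr a, Sum.inl b => b.2 = 0 ∧ (b.1 = a.1.fst ∨ b.1 = a.1.snd)
    | Sum.inl _, Sum.inr _ => False

variable {d : ℕ} (H : SimpleGraph V)

lemma g2_ll (a b : V × Fin (d + 3)) :
    (gadget2 d H).Adj (Sum.inl a) (Sum.inl b) ↔ a.1 = b.1 ∧ a.2 ≠ b.2 := by
  simp only [gadget2, SimpleGraph.fromRel_adj, ne_eq, Sum.inl.injEq]
  constructor
  · rintro ⟨h1, h2⟩
    have h3 : a.1 = b.1 := h2.elim id Eq.symm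
    exact ⟨h3, fun h => h1 (Prod.ext h3 h)⟩
  · rintro ⟨h1, h2⟩
    exact ⟨fun h => h2 (by rw [h]), Or.inl h1⟩

lemma g2_rr (a b : H.Dart × Fin (d + 1)) :
    (gadget2 d H).Adj (Sum.inr a) (Sum.inr b) ↔ a.1 = b.1 ∧ a.2 ≠ b.2 := by
  simp only [gadget2, SimpleGraph.fromRel_adj, ne_eq, Sum.inr.injEq]
  constructor
  · rintro ⟨h1, h2⟩
    have h3 : a.1 = b.1 := h2.elim id Eq.symm
    exact ⟨h3, fun h => h1 (Prod.ext h3 h)⟩
  · rintro ⟨h1, h2⟩
    exact ⟨fun h => h2 (by rw [h]), Or.inl h1⟩

lemma g2_rl (a : H.Dart × Fin (d + 1)) (b : V × Fin (d + 3)) :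
    (gadget2 d H).Adj (Sum.inr a) (Sum.inl b) ↔ b.2 = 0 ∧ (b.1 = a.1.fst ∨ b.1 = a.1.snd) := by
  simp [gadget2, SimpleGraph.fromRel_adj]

lemma g2_lr (a : H.Dart × Fin (d + 1)) (b : V × Fin (d + 3)) :
    (gadget2 d H).Adj (Sum.inl b) (Sum.inr a) ↔ b.2 = 0 ∧ (b.1 = a.1.fst ∨ b.1 = a.1.snd) := by
  rw [SimpleGraph.adj_comm, g2_rl]

/-- The closed neighbourhood of the new vertices of the dart `e`. -/
def nbE (e : H.Dart) : Fin (d + 3) → (V × Fin (d + 3)) ⊕ (H.Dart × Fin (d + 1)) :=
  Fin.cons (Sum.inl (e.fst, 0)) (Fin.cons (Sum.inl (e.snd, 0)) fun i => Sum.inr (e, i))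

lemma dom_l {S : Finset ((V × Fin (d + 3)) ⊕ (H.Dart × Fin (d + 1)))}
    (hS : Dominating (gadget2 d H) S) (h : V) : ∃ z : Fin (d + 3), Sum.inl (h, z) ∈ S := by
  by_cases h1 : Sum.inl (h, 1) ∈ S
  · exact ⟨1, h1⟩
  · obtain ⟨u, hu, hadj⟩ := hS _ h1
    rcases u with ⟨h', z⟩ | a
    · rw [g2_ll] at hadj
      obtain ⟨rfl, -⟩ := hadj
      exact ⟨z, hu⟩
    · rw [g2_lr] at hadj
      simp at hadj

lemma dom_r {S : Finset ((V × Fin (d + 3)) ⊕ (H.Dart × Fin (d + 1)))}
    (hS : Dominating (gadget2 d H) S) (e : H.Dart) : ∃ z : Fin (d + 3), nbE H e z ∈ S := by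
  by_cases h1 : Sum.inr (e, 0) ∈ S
  · exact ⟨Fin.succ (Fin.succ 0), h1⟩
  · obtain ⟨u, hu, hadj⟩ := hS _ h1
    rcases u with ⟨h, z⟩ | ⟨e', i⟩
    · rw [g2_rl] at hadj
      obtain ⟨h2, h3⟩ := hadj
      dsimp only at h2 h3
      subst h2
      rcases h3 with rfl | rfl
      · exact ⟨0, hu⟩
      · exact ⟨Fin.succ 0, hu⟩
    · rw [g2_rr] at hadj
      obtain ⟨h2, -⟩ := hadj
      dsimp only at h2
      subst h2
      exact ⟨Fin.succ (Fin.succ i), hu⟩

variable {H}

theorem full_gadget2_iff [Fintype V] [DecidableEq V] [DecidableRel H.Adj] {M : ℕ} :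
    Full (gadget2 d H) (d + 3) M ↔ FoldColorable H (d + 3) M := by
  classical
  constructor
  · rintro ⟨F, hF, hM⟩
    refine ⟨fun h => univ.filter fun i => (Sum.inl (h, (0 : Fin (d + 3)))) ∈ F i, fun h => ?_,
      fun u v huv => ?_⟩
    · have := (exact_of_full F hM (fun z => Sum.inl (h, z)) fun i => dom_l H (hF i) h).2 0
      exact this
    · rw [disjoint_left]
      intro i hi hj
      simp only [mem_filter, mem_univ, true_and] at hi hj
      let e : H.Dart := ⟨(u, v), huv⟩
      have := (exact_of_full F hM (nbE H e) fun i => dom_r H (hF i) e).1 i 0 (Fin.succ 0) hi hj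
      exact absurd this.symm (Fin.succ_ne_zero _)
  · rintro ⟨c, hc, hd⟩
    have hΩ : Fintype.card (Fin ((d + 3) * M)) = Fintype.card (Fin (d + 3)) * M := by simp
    have h0 : ∀ h, ∃ L : Fin (d + 3) → Finset (Fin ((d + 3) * M)),
        L 0 = c h ∧ (∀ x, (L x).card = M) ∧ ∀ ω, ∃ x, ω ∈ L x := by
      intro h
      have hex := extend hΩ {0} (fun _ => c h) ?_ ?_
      · obtain ⟨L, h1, h2, h3, h4⟩ := hex
        exact ⟨L, h1 0 (by simp), h2, h4⟩
      · intro s _
        exact hc _
      · intro s hs t ht hst
        simp only [mem_singleton] at hs ht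
        exact absurd (hs.trans ht.symm) hst
    have h1 : ∀ e : H.Dart, ∃ L : Fin (d + 3) → Finset (Fin ((d + 3) * M)),
        L 0 = c e.fst ∧ L (Fin.succ 0) = c e.snd ∧ (∀ x, (L x).card = M) ∧ ∀ ω, ∃ x, ω ∈ L x := by
      intro e
      have hne : (Fin.succ 0 : Fin (d + 3)) ≠ 0 := Fin.succ_ne_zero _
      have hex := extend hΩ {0, Fin.succ 0} (fun x => if x = 0 then c e.fst else c e.snd) ?_ ?_
      · obtain ⟨L, h1, h2, h3, h4⟩ := hex
        refine ⟨L, ?_, ?_, h2, h4⟩
        · rw [h1 0 (by simp)]; simp
        · rw [h1 (Fin.succ 0) (by simp), if_neg hne]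
      · intro s _
        split_ifs <;> exact hc _
      · intro s hs t ht hst
        rw [mem_insert, mem_singleton] at hs ht
        rcases hs with rfl | rfl <;> rcases ht with rfl | rfl
        · exact absurd rfl hst
        · rw [if_pos rfl, if_neg hne]
          exact hd _ _ e.adj
        · rw [if_neg hne, if_pos rfl]
          exact (hd _ _ e.adj).symm
        · exact absurd rfl hst
    choose L hL0 hLc hLω using h0
    choose K hK0 hK1 hKc hKω using h1
    refine ⟨fun i => univ.filter fun p => i ∈ Sum.elim (fun a => L a.1 a.2)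
      (fun a => K a.1 (Fin.succ (Fin.succ a.2))) p, fun i => ?_, fun v => ?_⟩
    · rintro (⟨h, x⟩ | ⟨e, j⟩) hp
      · simp only [mem_filter, mem_univ, true_and, Sum.elim_inl] at hp
        obtain ⟨y, hy⟩ := hLω h i
        refine ⟨Sum.inl (h, y), by simpa using hy, ?_⟩
        rw [g2_ll]
        refine ⟨rfl, ?_⟩
        rintro h'
        dsimp only at h'
        subst h'
        exact hp hy
      · simp only [mem_filter, mem_univ, true_and, Sum.elim_inr] at hp
        obtain ⟨z, hz⟩ := hKω e i
        induction z using Fin.cases with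
        | zero =>
          refine ⟨Sum.inl (e.fst, 0), ?_, ?_⟩
          · rw [hK0, ← hL0] at hz
            simpa using hz
          · rw [g2_rl]
            exact ⟨rfl, Or.inl rfl⟩
        | succ z =>
          induction z using Fin.cases with
          | zero =>
            refine ⟨Sum.inl (e.snd, 0), ?_, ?_⟩
            · rw [hK1, ← hL0] at hz
              simpa using hz
            · rw [g2_rl]
              exact ⟨rfl, Or.inr rfl⟩
          | succ z =>
            refine ⟨Sum.inr (e, z), by simpa using hz, ?_⟩
            rw [g2_rr]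
            refine ⟨rfl, ?_⟩
            rintro h'
            dsimp only at h'
            subst h'
            exact hp hz
    · rcases v with ⟨h, x⟩ | ⟨e, j⟩
      · refine le_of_eq (Eq.trans ?_ (hLc h x))
        congr 1
        ext i
        simp
      · refine le_of_eq (Eq.trans ?_ (hKc e (Fin.succ (Fin.succ j))))
        congr 1
        ext i
        simp

lemma gadget2_minDegree [Fintype V] [DecidableEq V] [DecidableRel H.Adj] [Nonempty V]
    [DecidableRel (gadget2 d H).Adj] : (gadget2 d H).minDegree = d + 2 := by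
  classical
  have hl : ∀ h x, univ.image (fun z : Fin (d + 3) => (Sum.inl (h, z) :
      (V × Fin (d + 3)) ⊕ (H.Dart × Fin (d + 1)))) ⊆
      insert (Sum.inl (h, x)) ((gadget2 d H).neighborFinset (Sum.inl (h, x))) := by
    intro h x p hp
    rw [mem_image] at hp
    obtain ⟨z, -, rfl⟩ := hp
    rw [mem_insert, SimpleGraph.mem_neighborFinset, g2_ll]
    by_cases hz : z = x
    · left
      rw [hz]
    · right
      exact ⟨rfl, fun h => hz h.symm⟩
  have hr : ∀ (e : H.Dart) (j : Fin (d + 1)), univ.image (nbE (d := d) H e) ⊆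
      insert (Sum.inr (e, j)) ((gadget2 d H).neighborFinset (Sum.inr (e, j))) := by
    intro e j p hp
    rw [mem_image] at hp
    obtain ⟨z, -, rfl⟩ := hp
    rw [mem_insert, SimpleGraph.mem_neighborFinset]
    induction z using Fin.cases with
    | zero =>
      right
      show (gadget2 d H).Adj _ (Sum.inl (e.fst, 0))
      rw [g2_rl]
      exact ⟨rfl, Or.inl rfl⟩
    | succ z =>
      induction z using Fin.cases with
      | zero =>
        right
        show (gadget2 d H).Adj _ (Sum.inl (e.snd, 0))
        rw [g2_rl]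
        exact ⟨rfl, Or.inr rfl⟩
      | succ z =>
        show Sum.inr (e, z) = _ ∨ (gadget2 d H).Adj _ (Sum.inr (e, z))
        by_cases hz : z = j
        · left
          rw [hz]
        · right
          rw [g2_rr]
          exact ⟨rfl, fun h => hz h.symm⟩
  have hcl : ∀ h, (univ.image (fun z : Fin (d + 3) => (Sum.inl (h, z) :
      (V × Fin (d + 3)) ⊕ (H.Dart × Fin (d + 1))))).card = d + 3 := by
    intro h
    rw [card_image_of_injective]
    · simp
    · intro a b hab
      simpa using hab
  have hcr : ∀ e : H.Dart, (univ.image (nbE (d := d) H e)).card = d + 3 := by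
    intro e
    rw [card_image_of_injective]
    · simp
    · intro a b hab
      induction a using Fin.cases with
      | zero =>
        induction b using Fin.cases with
        | zero => rfl
        | succ b =>
          induction b using Fin.cases with
          | zero =>
            exfalso
            have h1 : (Sum.inl (e.fst, 0) : (V × Fin (d + 3)) ⊕ (H.Dart × Fin (d + 1))) =
              Sum.inl (e.snd, 0) := hab
            rw [Sum.inl.injEq, Prod.mk.injEq] at h1
            exact e.adj.ne h1.1
          | succ b =>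
            exfalso
            have h1 : (Sum.inl (e.fst, 0) : (V × Fin (d + 3)) ⊕ (H.Dart × Fin (d + 1))) =
              Sum.inr (e, b) := hab
            simp at h1
      | succ a =>
        induction a using Fin.cases with
        | zero =>
          induction b using Fin.cases with
          | zero =>
            exfalso
            have h1 : (Sum.inl (e.snd, 0) : (V × Fin (d + 3)) ⊕ (H.Dart × Fin (d + 1))) =
              Sum.inl (e.fst, 0) := hab
            rw [Sum.inl.injEq, Prod.mk.injEq] at h1
            exact e.adj.ne h1.1.symm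
          | succ b =>
            induction b using Fin.cases with
            | zero => rfl
            | succ b =>
              exfalso
              have h1 : (Sum.inl (e.snd, 0) : (V × Fin (d + 3)) ⊕ (H.Dart × Fin (d + 1))) =
                Sum.inr (e, b) := hab
              simp at h1
        | succ a =>
          induction b using Fin.cases with
          | zero =>
            exfalso
            have h1 : (Sum.inr (e, a) : (V × Fin (d + 3)) ⊕ (H.Dart × Fin (d + 1))) =
              Sum.inl (e.fst, 0) := hab
            simp at h1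
          | succ b =>
            induction b using Fin.cases with
            | zero =>
              exfalso
              have h1 : (Sum.inr (e, a) : (V × Fin (d + 3)) ⊕ (H.Dart × Fin (d + 1))) =
                Sum.inl (e.snd, 0) := hab
              simp at h1
            | succ b =>
              have h1 : (Sum.inr (e, a) : (V × Fin (d + 3)) ⊕ (H.Dart × Fin (d + 1))) =
                Sum.inr (e, b) := hab
              rw [Sum.inr.injEq, Prod.mk.injEq] at h1
              rw [h1.2]
  apply le_antisymm
  · obtain ⟨h⟩ := ‹Nonempty V›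
    refine ((gadget2 d H).minDegree_le_degree (Sum.inl (h, 1))).trans (le_of_eq ?_)
    have heq : insert (Sum.inl (h, 1)) ((gadget2 d H).neighborFinset (Sum.inl (h, 1))) =
        univ.image (fun z : Fin (d + 3) => (Sum.inl (h, z) :
          (V × Fin (d + 3)) ⊕ (H.Dart × Fin (d + 1)))) := by
      apply Subset.antisymm _ (hl h 1)
      intro p hp
      rw [mem_insert, SimpleGraph.mem_neighborFinset] at hp
      rw [mem_image]
      rcases p with ⟨h', x⟩ | a
      · refine ⟨x, mem_univ _, ?_⟩
        rcases hp with hp | hp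
        · rw [Sum.inl.injEq, Prod.mk.injEq] at hp
          rw [hp.1]
        · rw [g2_ll] at hp
          have h1 : h = h' := hp.1
          rw [h1]
      · exfalso
        rcases hp with hp | hp
        · simp at hp
        · rw [g2_lr] at hp
          simp at hp
    have hc := congrArg Finset.card heq
    rw [hcl, card_insert_of_notMem (by simp), SimpleGraph.card_neighborFinset_eq_degree] at hc
    omega
  · apply SimpleGraph.le_minDegree_of_forall_le_degree
    intro p
    have h1 : d + 3 ≤ (insert p ((gadget2 d H).neighborFinset p)).card := by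
      rcases p with ⟨h, x⟩ | ⟨e, j⟩
      · exact (hcl h).symm.le.trans (card_le_card (hl h x))
      · exact (hcr e).symm.le.trans (card_le_card (hr e j))
    rw [card_insert_of_notMem (by simp), SimpleGraph.card_neighborFinset_eq_degree] at h1
    omega

end Pool.Agent.helper13.FD
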