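import Mathlib
import Pool.Agent.helper13.FD.Basic

set_option autoImplicit false

/-!
# The Kneser graph of the pairs of a `2 k`-set, and products with a complete graph
-/

open Finset

namespace Pool.Agent.helper13.FD

/-- The Kneser graph of the 2-subsets of `Fin n`. -/
def kneser2 (n : ℕ) : SimpleGraph {s : Finset (Fin n) // s.card = 2} where
  Adj s t := Disjoint s.1 t.1
  symm := ⟨fun _ _ h => Disjoint.symm h⟩
  loopless := ⟨fun s h => by
    have h1 : s.1 = ∅ := disjoint_self.1 h
    have h2 := s.2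
    rw [h1] at h2
    simp at h2⟩

lemma kneser2_fracColorable (k : ℕ) : FracColorable (kneser2 (k * 2)) k :=
  ⟨2, by norm_num, fun s => s.1, fun s => s.2, fun _ _ h => h⟩

/-- Pairwise intersecting 2-sets without a common point lie in a 3-set. -/
lemma intersecting {n : ℕ} (P : Finset (Fin n) → Prop) (h2 : ∀ s, P s → s.card = 2)
    (hint : ∀ s t, P s → P t → ¬ Disjoint s t) (hstar : ¬ ∃ p, ∀ s, P s → p ∈ s) (hn : 0 < n) :
    ∃ T : Finset (Fin n), T.card = 3 ∧ ∀ s, P s → s ⊆ T := by
  push Not at hstar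
  obtain ⟨s, hs, -⟩ := hstar ⟨0, hn⟩
  obtain ⟨a, b, hab, rfl⟩ := card_eq_two.1 (h2 s hs)
  obtain ⟨t, ht, hat⟩ := hstar a
  obtain ⟨u, hu, hbu⟩ := hstar b
  have hbt : b ∈ t := by
    have := hint _ _ hs ht
    rw [not_disjoint_iff] at this
    obtain ⟨x, hx, hxt⟩ := this
    rw [mem_insert, mem_singleton] at hx
    rcases hx with rfl | rfl
    · exact absurd hxt hat
    · exact hxt
  have hau : a ∈ u := by
    have := hint _ _ hs hu
    rw [not_disjoint_iff] at this
    obtain ⟨x, hx, hxt⟩ := this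
    rw [mem_insert, mem_singleton] at hx
    rcases hx with rfl | rfl
    · exact hxt
    · exact absurd hxt hbu
  obtain ⟨c, hct, hcu⟩ := not_disjoint_iff.1 (hint _ _ ht hu)
  have hca : c ≠ a := by rintro rfl; exact hat hct
  have hcb : c ≠ b := by rintro rfl; exact hbu hcu
  have ht' : t = {b, c} := by
    symm
    apply eq_of_subset_of_card_le
    · intro x hx
      rw [mem_insert, mem_singleton] at hx
      rcases hx with rfl | rfl
      · exact hbt
      · exact hct
    · rw [h2 t ht, card_pair hcb.symm]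
  have hu' : u = {a, c} := by
    symm
    apply eq_of_subset_of_card_le
    · intro x hx
      rw [mem_insert, mem_singleton] at hx
      rcases hx with rfl | rfl
      · exact hau
      · exact hcu
    · rw [h2 u hu, card_pair hca.symm]
  refine ⟨{a, b, c}, ?_, ?_⟩
  · rw [card_insert_of_notMem, card_pair hcb.symm]
    simp [hab, hca.symm]
  · intro w hw
    have hs2 : ∀ x y, x ≠ y → x ∈ w → y ∈ w → w = {x, y} := by
      intro x y hxy hx hy
      symm
      apply eq_of_subset_of_card_le
      · intro z hz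
        rw [mem_insert, mem_singleton] at hz
        rcases hz with rfl | rfl
        · exact hx
        · exact hy
      · rw [h2 w hw, card_pair hxy]
    obtain ⟨x, hx, hxw⟩ := not_disjoint_iff.1 (hint _ _ hs hw)
    obtain ⟨y, hy, hyw⟩ := not_disjoint_iff.1 (hint _ _ ht hw)
    obtain ⟨z, hz, hzw⟩ := not_disjoint_iff.1 (hint _ _ hu hw)
    rw [ht'] at hy
    rw [hu'] at hz
    rw [mem_insert, mem_singleton] at hx hy hz
    rcases hx with rfl | rfl
    · rcases hy with rfl | rfl
      · rw [hs2 x y hab hxw hyw]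
        intro z hz
        simp only [mem_insert, mem_singleton] at hz ⊢
        tauto
      · rw [hs2 x y hca.symm hxw hyw]
        intro z hz
        simp only [mem_insert, mem_singleton] at hz ⊢
        tauto
    · rcases hz with rfl | rfl
      · rw [hs2 z x hab hzw hxw]
        intro z hz
        simp only [mem_insert, mem_singleton] at hz ⊢
        tauto
      · rw [hs2 x z hcb.symm hxw hzw]
        intro z hz
        simp only [mem_insert, mem_singleton] at hz ⊢
        tauto

/-- The Kneser graph of the pairs of a `2 k`-set is not `k`-colourable, `k ≥ 3`. -/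
lemma kneser2_not_colorable (k : ℕ) (hk : 3 ≤ k) : ¬ (kneser2 (k * 2)).Colorable k := by
  classical
  rintro ⟨C⟩
  have hn : 0 < k * 2 := by omega
  let P : Fin k → Finset (Fin (k * 2)) → Prop := fun x s => ∃ h : s.card = 2, C ⟨s, h⟩ = x
  let St : Finset (Fin k) := univ.filter fun x => ∃ p, ∀ s, P x s → p ∈ s
  have hSt : ∀ x, ∃ p : Fin (k * 2), x ∈ St → ∀ s, P x s → p ∈ s := by
    intro x
    by_cases hx : x ∈ St
    · obtain ⟨p, hp⟩ := (mem_filter.1 hx).2
      exact ⟨p, fun _ => hp⟩
    · exact ⟨⟨0, hn⟩, fun h => absurd h hx⟩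
  choose p hp using hSt
  have hT : ∀ x, ∃ T : Finset (Fin (k * 2)), T.card = 3 ∧ (x ∉ St → ∀ s, P x s → s ⊆ T) := by
    intro x
    by_cases hx : x ∈ St
    · obtain ⟨T, -, hT⟩ := exists_subset_card_eq (s := (univ : Finset (Fin (k * 2)))) (n := 3)
        (by simp; omega)
      exact ⟨T, hT, fun h => absurd hx h⟩
    · have hx' : ¬ ∃ p, ∀ s, P x s → p ∈ s := fun h => hx (mem_filter.2 ⟨mem_univ _, h⟩)
      obtain ⟨T, h1, h2⟩ := intersecting (P x) (fun s hs => hs.1) (fun s t hs ht hst => by
        obtain ⟨h1, h2⟩ := hs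
        obtain ⟨h3, h4⟩ := ht
        exact C.valid (v := ⟨s, h1⟩) (w := ⟨t, h3⟩) hst (h2.trans h4.symm)) hx' hn
      exact ⟨T, h1, fun _ => h2⟩
  choose T hT3 hT using hT
  let U : Finset (Fin (k * 2)) := (St.image p)ᶜ
  have hU : k * 2 ≤ U.card + St.card := by
    have h1 : U.card = k * 2 - (St.image p).card := by
      rw [card_compl, Fintype.card_fin]
    have h2 : (St.image p).card ≤ St.card := card_image_le
    omega
  have hsub : powersetCard 2 U ⊆ (Stᶜ).biUnion fun x => powersetCard 2 (T x) := by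
    intro s hs
    rw [mem_powersetCard] at hs
    obtain ⟨hsU, hs2⟩ := hs
    have hPs : P (C ⟨s, hs2⟩) s := ⟨hs2, rfl⟩
    have hx : C ⟨s, hs2⟩ ∉ St := by
      intro hx
      have h1 := hsU (hp _ hx s hPs)
      rw [mem_compl, mem_image] at h1
      exact h1 ⟨_, hx, rfl⟩
    rw [mem_biUnion]
    refine ⟨_, by rwa [mem_compl], ?_⟩
    rw [mem_powersetCard]
    exact ⟨hT _ hx s hPs, hs2⟩
  have hcard : U.card.choose 2 ≤ (k - St.card) * 3 := by
    have h1 := card_le_card hsub
    rw [card_powersetCard] at h1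
    refine h1.trans (card_biUnion_le.trans ?_)
    rw [sum_congr rfl fun x _ => by rw [card_powersetCard, hT3]]
    rw [sum_const, card_compl, Fintype.card_fin, smul_eq_mul]
    simp
  have hStk : St.card ≤ k := by
    simpa using card_le_univ St
  obtain ⟨r, hr⟩ := Nat.exists_eq_add_of_le hStk
  have h1 : k + r ≤ U.card := by omega
  have h2 : (k + r).choose 2 ≤ r * 3 := by
    refine (Nat.choose_le_choose 2 h1).trans (hcard.trans (le_of_eq ?_))
    congr 1
    omega
  rw [Nat.choose_two_right] at h2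
  have h3 : (k + r) * (k + r - 1) ≤ 2 * (r * 3) + 1 := by omega
  obtain ⟨m, hm⟩ : ∃ m, k + r = m + 1 := ⟨k + r - 1, by omega⟩
  rw [hm, Nat.add_sub_cancel] at h3
  have h4 : r + 2 ≤ m := by omega
  nlinarith

variable {V : Type*}

lemma FoldColorable.pos {H : SimpleGraph V} {k : ℕ} (h : H.Colorable k) : FracColorable H k :=
  ⟨1, one_pos, foldColorable_one.2 h⟩

lemma colorable_of_frac_boxProd (H : SimpleGraph V) (k : ℕ) (hk : 0 < k)
    (h : FracColorable (H □ (⊤ : SimpleGraph (Fin k))) k) : H.Colorable k := by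
  classical
  obtain ⟨b, hb, c, hc, hd⟩ := h
  have hpos : 0 < k * b := Nat.mul_pos hk hb
  let ω : Fin (k * b) := ⟨0, hpos⟩
  have hcov : ∀ v, ∃ x : Fin k, ω ∈ c (v, x) := by
    intro v
    have hcard : (univ.biUnion fun x : Fin k => c (v, x)).card = Fintype.card (Fin (k * b)) := by
      rw [card_biUnion]
      · rw [sum_congr rfl fun x _ => hc (v, x)]
        simp
      · intro x _ y _ hxy
        apply hd
        rw [SimpleGraph.boxProd_adj]
        exact Or.inr ⟨hxy, rfl⟩
    have huniv := (card_eq_iff_eq_univ _).1 hcard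
    have : ω ∈ univ.biUnion fun x : Fin k => c (v, x) := by rw [huniv]; exact mem_univ _
    simpa using this
  choose f hf using hcov
  refine ⟨SimpleGraph.Coloring.mk f ?_⟩
  intro u v huv h
  have h1 := hd (u, f u) (v, f u) (by
    rw [SimpleGraph.boxProd_adj]
    exact Or.inl ⟨huv, rfl⟩)
  have h2 := hf v
  rw [← h] at h2
  exact disjoint_left.1 h1 (hf u) h2

lemma colorable_boxProd (H : SimpleGraph V) (k : ℕ) (h : H.Colorable (k + 1)) :
    (H □ (⊤ : SimpleGraph (Fin (k + 1)))).Colorable (k + 1) := by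
  obtain ⟨c⟩ := h
  refine ⟨SimpleGraph.Coloring.mk (fun p => c p.1 + p.2) ?_⟩
  rintro ⟨u, x⟩ ⟨v, y⟩ huv h
  rw [SimpleGraph.boxProd_adj] at huv
  rcases huv with ⟨h1, h2⟩ | ⟨h1, h2⟩
  · dsimp only at h1 h2 h
    rw [h2] at h
    exact c.valid h1 (add_right_cancel h)
  · dsimp only at h1 h2 h
    rw [h2] at h
    exact h1 (add_left_cancel h)

end Pool.Agent.helper13.FD
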