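import Mathlib
import Pool.Agent.helper13.FD.Basic

set_option autoImplicit false

/-!
# Regular graphs: perfect families of dominating sets are fractional colourings of the square
-/

open Finset

namespace Pool.Agent.helper13.FD

variable {V : Type*}

/-- The square of a graph: different vertices are joined if they are adjacent or have a common
neighbour. -/
def square (G : SimpleGraph V) : SimpleGraph V where
  Adj u v := u ≠ v ∧ (G.Adj u v ∨ ∃ w, G.Adj u w ∧ G.Adj w v)
  symm := ⟨fun _ _ h => ⟨h.1.symm, h.2.elim (fun h => Or.inl h.symm)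
    fun ⟨w, h1, h2⟩ => Or.inr ⟨w, h2.symm, h1.symm⟩⟩⟩
  loopless := ⟨fun _ h => h.1 rfl⟩

lemma exists_enum [Fintype V] [DecidableEq V] {G : SimpleGraph V} [DecidableRel G.Adj] {δ : ℕ}
    (w : V) (hw : G.degree w = δ) :
    ∃ e : Fin (δ + 1) → V, Function.Injective e ∧
      ∀ v, (∃ z, e z = v) ↔ (v = w ∨ G.Adj w v) := by
  have hc : (insert w (G.neighborFinset w)).card = δ + 1 := by
    rw [card_insert_of_notMem (by simp), SimpleGraph.card_neighborFinset_eq_degree, hw]
  let E := (equivFinOfCardEq hc).symm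
  refine ⟨fun z => (E z).1, fun a b h => E.injective (Subtype.ext h), fun v => ?_⟩
  constructor
  · rintro ⟨z, rfl⟩
    have := (E z).2
    rwa [mem_insert, SimpleGraph.mem_neighborFinset] at this
  · intro hv
    have hv' : v ∈ insert w (G.neighborFinset w) := by
      rwa [mem_insert, SimpleGraph.mem_neighborFinset]
    refine ⟨E.symm ⟨v, hv'⟩, ?_⟩
    simp

lemma enum_dominating [Fintype V] [DecidableEq V] {G : SimpleGraph V} {δ : ℕ}
    {w : V} {e : Fin (δ + 1) → V} (he : ∀ v, (∃ z, e z = v) ↔ (v = w ∨ G.Adj w v))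
    {S : Finset V} (hS : Dominating G S) : ∃ z, e z ∈ S := by
  by_cases hw : w ∈ S
  · obtain ⟨z, hz⟩ := (he w).2 (Or.inl rfl)
    exact ⟨z, by rwa [hz]⟩
  · obtain ⟨u, hu, hwu⟩ := hS w hw
    obtain ⟨z, hz⟩ := (he u).2 (Or.inr hwu)
    exact ⟨z, by rwa [hz]⟩

theorem full_regular_iff [Fintype V] [DecidableEq V] {G : SimpleGraph V} [DecidableRel G.Adj]
    {δ M : ℕ} (hreg : G.IsRegularOfDegree δ) :
    Full G (δ + 1) M ↔ FoldColorable (square G) (δ + 1) M := by
  constructor
  · rintro ⟨F, hF, hM⟩
    refine ⟨fun v => univ.filter fun i => v ∈ F i, fun w => ?_, fun u v huv => ?_⟩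
    · obtain ⟨e, -, he⟩ := exists_enum w (hreg w)
      obtain ⟨z, hz⟩ := (he w).2 (Or.inl rfl)
      have := (exact_of_full F hM e fun i => enum_dominating he (hF i)).2 z
      rw [hz] at this
      exact this
    · rw [disjoint_left]
      intro i hi hj
      simp only [mem_filter, mem_univ, true_and] at hi hj
      have key : ∀ w, (u = w ∨ G.Adj w u) → (v = w ∨ G.Adj w v) → False := by
        intro w h1 h2
        obtain ⟨e, -, he⟩ := exists_enum w (hreg w)
        obtain ⟨z, hz⟩ := (he u).2 h1
        obtain ⟨z', hz'⟩ := (he v).2 h2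
        have := (exact_of_full F hM e fun i => enum_dominating he (hF i)).1 i z z'
          (by rwa [hz]) (by rwa [hz'])
        exact huv.1 (by rw [← hz, ← hz', this])
      rcases huv.2 with h | ⟨w, h1, h2⟩
      · exact key u (Or.inl rfl) (Or.inr h)
      · exact key w (Or.inr h1.symm) (Or.inr h2)
  · rintro ⟨c, hc, hd⟩
    refine ⟨fun i => univ.filter fun v => i ∈ c v, fun i w hw => ?_, fun v => ?_⟩
    · obtain ⟨e, hinj, he⟩ := exists_enum w (hreg w)
      have hcard : (univ.biUnion fun z => c (e z)).card =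
          Fintype.card (Fin ((δ + 1) * M)) := by
        rw [card_biUnion]
        · rw [sum_congr rfl fun z _ => hc (e z)]
          simp
        · intro z _ z' _ hzz
          apply hd
          refine ⟨fun h => hzz (hinj h), ?_⟩
          rcases (he (e z)).1 ⟨z, rfl⟩ with h1 | h1 <;> rcases (he (e z')).1 ⟨z', rfl⟩ with h2 | h2
          · exact absurd (hinj (h1.trans h2.symm)) hzz
          · left
            rw [h1]
            exact h2
          · left
            rw [h2]
            exact h1.symm
          · exact Or.inr ⟨w, h1.symm, h2⟩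
      have huniv := (card_eq_iff_eq_univ _).1 hcard
      have hi : i ∈ univ.biUnion fun z => c (e z) := by rw [huniv]; exact mem_univ _
      rw [mem_biUnion] at hi
      obtain ⟨z, -, hz⟩ := hi
      refine ⟨e z, by simpa using hz, ?_⟩
      rcases (he (e z)).1 ⟨z, rfl⟩ with h1 | h1
      · exfalso
        apply hw
        rw [mem_filter]
        rw [h1] at hz
        exact ⟨mem_univ _, hz⟩
      · exact h1
    · refine le_of_eq (Eq.trans ?_ (hc v))
      congr 1
      ext i
      simp

/-- Different vertices `u`, `v` are joined if they lie in the closed neighbourhood of one vertex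
of degree `δ`. -/
def lowSquare [Fintype V] (δ : ℕ) (G : SimpleGraph V) [DecidableRel G.Adj] : SimpleGraph V where
  Adj u v := u ≠ v ∧ ∃ x, G.degree x = δ ∧ (u = x ∨ G.Adj x u) ∧ (v = x ∨ G.Adj x v)
  symm := ⟨fun _ _ h => ⟨h.1.symm, h.2.imp fun _ hx => ⟨hx.1, hx.2.2, hx.2.1⟩⟩⟩
  loopless := ⟨fun _ h => h.1 rfl⟩

theorem full_low_iff [Fintype V] [DecidableEq V] {G : SimpleGraph V} [DecidableRel G.Adj]
    {δ M : ℕ} (hlow : ∀ w, ∃ x, G.degree x = δ ∧
      ∀ u, (u = x ∨ G.Adj x u) → (u = w ∨ G.Adj w u)) :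
    Full G (δ + 1) M ↔ FoldColorable (lowSquare δ G) (δ + 1) M := by
  constructor
  · rintro ⟨F, hF, hM⟩
    have hex : ∀ v, ∃ C : Finset (Fin ((δ + 1) * M)), C.card = M ∧
        ((∃ x, G.degree x = δ ∧ (v = x ∨ G.Adj x v)) → C = univ.filter fun i => v ∈ F i) := by
      intro v
      by_cases hv : ∃ x, G.degree x = δ ∧ (v = x ∨ G.Adj x v)
      · refine ⟨univ.filter fun i => v ∈ F i, ?_, fun _ => rfl⟩
        obtain ⟨x, hx, hv⟩ := hv
        obtain ⟨e, -, he⟩ := exists_enum x hx
        obtain ⟨z, hz⟩ := (he v).2 hv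
        have := (exact_of_full F hM e fun i => enum_dominating he (hF i)).2 z
        rw [hz] at this
        exact this
      · obtain ⟨C, -, hC⟩ := exists_subset_card_eq (s := (univ : Finset (Fin ((δ + 1) * M))))
          (n := M) (by rw [card_univ, Fintype.card_fin]; exact Nat.le_mul_of_pos_left M (by omega))
        exact ⟨C, hC, fun h => absurd h hv⟩
    choose c hc hc' using hex
    refine ⟨c, hc, fun u v huv => ?_⟩
    obtain ⟨hne, x, hx, hu, hv⟩ := huv
    rw [hc' u ⟨x, hx, hu⟩, hc' v ⟨x, hx, hv⟩, disjoint_left]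
    intro i hi hj
    simp only [mem_filter, mem_univ, true_and] at hi hj
    obtain ⟨e, -, he⟩ := exists_enum x hx
    obtain ⟨z, hz⟩ := (he u).2 hu
    obtain ⟨z', hz'⟩ := (he v).2 hv
    have := (exact_of_full F hM e fun i => enum_dominating he (hF i)).1 i z z'
      (by rwa [hz]) (by rwa [hz'])
    exact hne (by rw [← hz, ← hz', this])
  · rintro ⟨c, hc, hd⟩
    refine ⟨fun i => univ.filter fun v => i ∈ c v, fun i w hw => ?_, fun v => ?_⟩
    · obtain ⟨x, hx, hxw⟩ := hlow w
      obtain ⟨e, hinj, he⟩ := exists_enum x hx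
      have hcard : (univ.biUnion fun z => c (e z)).card =
          Fintype.card (Fin ((δ + 1) * M)) := by
        rw [card_biUnion]
        · rw [sum_congr rfl fun z _ => hc (e z)]
          simp
        · intro z _ z' _ hzz
          apply hd
          exact ⟨fun h => hzz (hinj h), x, hx, (he (e z)).1 ⟨z, rfl⟩, (he (e z')).1 ⟨z', rfl⟩⟩
      have huniv := (card_eq_iff_eq_univ _).1 hcard
      have hi : i ∈ univ.biUnion fun z => c (e z) := by rw [huniv]; exact mem_univ _
      rw [mem_biUnion] at hi
      obtain ⟨z, -, hz⟩ := hi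
      refine ⟨e z, by simpa using hz, ?_⟩
      rcases hxw _ ((he (e z)).1 ⟨z, rfl⟩) with h1 | h1
      · exfalso
        apply hw
        rw [mem_filter]
        rw [h1] at hz
        exact ⟨mem_univ _, hz⟩
      · exact h1
    · refine le_of_eq (Eq.trans ?_ (hc v))
      congr 1
      ext i
      simp

end Pool.Agent.helper13.FD
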