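import Mathlib
import Pool.Agent.helper13.FD.Encode
import Pool.Agent.helper13.FD.General
import Pool.Agent.helper13.FD.Kneser
import Pool.Agent.helper13.FD.Square

set_option autoImplicit false

/-!
# Assembling the results on `FDOM(G) = δ(G) + 1`
-/

open Finset

namespace Pool.Agent.helper13.FD

lemma exists_hasDom {V : Type*} (G : SimpleGraph V) (k : ℕ) (hk : ∀ n ∈ domaticSizes G, n ≤ k + 1)
    (hne : ¬ HasDom G (k + 1)) : ∃ n ≤ k, HasDom G n := by
  classical
  have h0 : (0 : ℕ) ∈ domaticSizes G :=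
    ⟨fun i => i.elim0, fun i => i.elim0, fun i => i.elim0⟩
  have hb : BddAbove (domaticSizes G) := ⟨k + 1, fun n hn => hk n hn⟩
  have hmem : sSup (domaticSizes G) ∈ domaticSizes G := Nat.sSup_mem ⟨0, h0⟩ hb
  have hG : HasDom G (sSup (domaticSizes G)) := ⟨hmem, fun n hn => le_csSup hb hn⟩
  refine ⟨_, ?_, hG⟩
  have h1 := hk _ hmem
  rcases Nat.lt_or_ge (sSup (domaticSizes G)) (k + 1) with h | h
  · omega
  · exfalso
    apply hne
    rw [show k + 1 = sSup (domaticSizes G) by omega]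
    exact hG

lemma domaticSizes_le {V : Type*} [DecidableEq V] (G : SimpleGraph V) {k : ℕ} (e : Fin k → V)
    (he : ∀ S, Dominating G S → ∃ z, e z ∈ S) : ∀ n ∈ domaticSizes G, n ≤ k := by
  rintro n ⟨F', hF', hd⟩
  have := count_le (M := 1) F' (fun v => ?_) e (fun i => he _ (hF' i))
  · simpa using this
  · rw [card_le_one]
    intro i hi j hj
    simp only [mem_filter, mem_univ, true_and] at hi hj
    by_contra hij
    exact disjoint_left.1 (hd _ _ hij) hi hj

section
variable {V : Type*} [Fintype V] [DecidableEq V] [Nonempty V] {d : ℕ}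

theorem gadget_hasDom (H : SimpleGraph V) {σ : Equiv.Perm V} (hσ : σ.IsCycleOn Set.univ) :
    HasDom (gadget d σ H) (d + 4) ↔ H.Colorable (d + 4) := by
  obtain ⟨h⟩ := ‹Nonempty V›
  rw [hasDom_iff _ (nb σ H ((h, h, 0), 0)) fun S hS => (dominating_iff σ H S).1 hS _,
    full_gadget_iff hσ, foldColorable_one]

theorem gadget_hasFDom (H : SimpleGraph V) {σ : Equiv.Perm V} (hσ : σ.IsCycleOn Set.univ) :
    HasFDom (gadget d σ H) ((d + 4 : ℕ) : ℚ) ↔ FracColorable H (d + 4) := by
  obtain ⟨h⟩ := ‹Nonempty V›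
  rw [hasFDom_iff _ (by omega) (nb σ H ((h, h, 0), 0)) fun S hS => (dominating_iff σ H S).1 hS _]
  exact exists_congr fun M => and_congr_right fun _ => full_gadget_iff hσ

theorem gadget2_hasDom (H : SimpleGraph V) [DecidableRel H.Adj] :
    HasDom (gadget2 d H) (d + 3) ↔ H.Colorable (d + 3) := by
  obtain ⟨h⟩ := ‹Nonempty V›
  rw [hasDom_iff _ (fun z => Sum.inl (h, z)) fun S hS => dom_l H hS h,
    full_gadget2_iff, foldColorable_one]

theorem gadget2_hasFDom (H : SimpleGraph V) [DecidableRel H.Adj] :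
    HasFDom (gadget2 d H) ((d + 3 : ℕ) : ℚ) ↔ FracColorable H (d + 3) := by
  obtain ⟨h⟩ := ‹Nonempty V›
  rw [hasFDom_iff _ (by omega) (fun z => Sum.inl (h, z)) fun S hS => dom_l H hS h]
  exact exists_congr fun M => and_congr_right fun _ => full_gadget2_iff

theorem regular_hasDom (G : SimpleGraph V) [DecidableRel G.Adj] {δ : ℕ}
    (hreg : G.IsRegularOfDegree δ) : HasDom G (δ + 1) ↔ (square G).Colorable (δ + 1) := by
  obtain ⟨w⟩ := ‹Nonempty V›
  obtain ⟨e, -, he⟩ := exists_enum w (hreg w)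
  rw [hasDom_iff _ e fun S hS => enum_dominating he hS, full_regular_iff hreg, foldColorable_one]

theorem regular_hasFDom (G : SimpleGraph V) [DecidableRel G.Adj] {δ : ℕ}
    (hreg : G.IsRegularOfDegree δ) :
    HasFDom G ((δ + 1 : ℕ) : ℚ) ↔ FracColorable (square G) (δ + 1) := by
  obtain ⟨w⟩ := ‹Nonempty V›
  obtain ⟨e, -, he⟩ := exists_enum w (hreg w)
  rw [hasFDom_iff _ (by omega) e fun S hS => enum_dominating he hS]
  exact exists_congr fun M => and_congr_right fun _ => full_regular_iff hreg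

theorem low_hasDom (G : SimpleGraph V) [DecidableRel G.Adj] {δ : ℕ}
    (hlow : ∀ w, ∃ x, G.degree x = δ ∧ ∀ u, (u = x ∨ G.Adj x u) → (u = w ∨ G.Adj w u)) :
    HasDom G (δ + 1) ↔ (lowSquare δ G).Colorable (δ + 1) := by
  obtain ⟨w⟩ := ‹Nonempty V›
  obtain ⟨x, hx, -⟩ := hlow w
  obtain ⟨e, -, he⟩ := exists_enum x hx
  rw [hasDom_iff _ e fun S hS => enum_dominating he hS, full_low_iff hlow, foldColorable_one]

theorem low_hasFDom (G : SimpleGraph V) [DecidableRel G.Adj] {δ : ℕ}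
    (hlow : ∀ w, ∃ x, G.degree x = δ ∧ ∀ u, (u = x ∨ G.Adj x u) → (u = w ∨ G.Adj w u)) :
    HasFDom G ((δ + 1 : ℕ) : ℚ) ↔ FracColorable (lowSquare δ G) (δ + 1) := by
  obtain ⟨w⟩ := ‹Nonempty V›
  obtain ⟨x, hx, -⟩ := hlow w
  obtain ⟨e, -, he⟩ := exists_enum x hx
  rw [hasFDom_iff _ (by omega) e fun S hS => enum_dominating he hS]
  exact exists_congr fun M => and_congr_right fun _ => full_low_iff hlow

end

lemma fracColorable_boxProd_iff {V : Type*} (H : SimpleGraph V) (k : ℕ) :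
    FracColorable (H □ (⊤ : SimpleGraph (Fin (k + 1)))) (k + 1) ↔ H.Colorable (k + 1) :=
  ⟨colorable_of_frac_boxProd H (k + 1) (by omega),
    fun h => FoldColorable.pos (colorable_boxProd H k h)⟩

lemma colorable_boxProd_iff {V : Type*} (H : SimpleGraph V) (k : ℕ) :
    (H □ (⊤ : SimpleGraph (Fin (k + 1)))).Colorable (k + 1) ↔ H.Colorable (k + 1) :=
  ⟨fun h => colorable_of_frac_boxProd H (k + 1) (by omega) (FoldColorable.pos h),
    colorable_boxProd H k⟩

lemma kneser2_nonempty (k : ℕ) : Nonempty {s : Finset (Fin ((k + 1) * 2)) // s.card = 2} := by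
  obtain ⟨s, -, hs⟩ := exists_subset_card_eq (s := (univ : Finset (Fin ((k + 1) * 2)))) (n := 2)
    (by simp)
  exact ⟨⟨s, hs⟩⟩

/-- For each `δ ≥ 2` there is a graph with minimum degree `δ`, `FDOM = δ + 1` and `dom ≤ δ`; if
`δ ≥ 3` it can be chosen `δ`-regular. -/
theorem exists_gap (δ : ℕ) (hδ : 2 ≤ δ) :
    ∃ (W : Type) (_ : Fintype W) (_ : DecidableEq W) (G : SimpleGraph W) (_ : DecidableRel G.Adj),
      G.minDegree = δ ∧ (3 ≤ δ → G.IsRegularOfDegree δ) ∧ HasFDom G ((δ + 1 : ℕ) : ℚ) ∧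
        ∃ k ≤ δ, HasDom G k := by
  classical
  rcases Nat.lt_or_ge δ 3 with hδ3 | hδ3
  · obtain rfl : δ = 2 := by omega
    have hne := kneser2_nonempty 2
    refine ⟨_, inferInstance, inferInstance, gadget2 0 (kneser2 (3 * 2)), inferInstance,
      gadget2_minDegree (d := 0), fun h => absurd h (by omega), ?_, ?_⟩
    · exact (gadget2_hasFDom (d := 0) (kneser2 (3 * 2))).2 (kneser2_fracColorable 3)
    · obtain ⟨h⟩ := hne
      refine exists_hasDom _ _ (domaticSizes_le _ (fun z => Sum.inl (h, z))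
        fun S hS => dom_l _ hS h) ?_
      have : Nonempty {s : Finset (Fin (3 * 2)) // s.card = 2} := ⟨h⟩
      rw [gadget2_hasDom]
      exact kneser2_not_colorable 3 le_rfl
  · obtain ⟨d, rfl⟩ := Nat.exists_eq_add_of_le' hδ3
    have hne : Nonempty {s : Finset (Fin ((d + 4) * 2)) // s.card = 2} := kneser2_nonempty (d + 3)
    obtain ⟨σ, hσ, -⟩ := Finset.exists_cycleOn
      (univ : Finset {s : Finset (Fin ((d + 4) * 2)) // s.card = 2})
    rw [coe_univ] at hσ
    have hreg : (gadget d σ (kneser2 ((d + 4) * 2))).IsRegularOfDegree (d + 3) :=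
      fun p => gadget_regular σ _ p
    refine ⟨_, inferInstance, inferInstance, gadget d σ (kneser2 ((d + 4) * 2)), inferInstance,
      ?_, fun _ => hreg, ?_, ?_⟩
    · exact hreg.minDegree_eq
    · exact (gadget_hasFDom _ hσ).2 (kneser2_fracColorable _)
    · obtain ⟨h⟩ := hne
      refine exists_hasDom _ _ (domaticSizes_le _ (nb σ _ ((h, h, 0), 0))
        fun S hS => (dominating_iff σ _ S).1 hS _) ?_
      have : Nonempty {s : Finset (Fin ((d + 4) * 2)) // s.card = 2} := ⟨h⟩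
      rw [gadget_hasDom _ hσ]
      exact kneser2_not_colorable _ (by omega)

end Pool.Agent.helper13.FD
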